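import Mathlib

/-!
Project AC, module Bad: counting the slow levels (a rising sun argument; real sequences only).

Proof. Let `M i = min over l ∈ [i, j] of (s l + e (l - i))` for `a ≤ i ≤ j` (e.g. downward recursion: `M j = s j`,
`M i = min (s i) (M (i+1) + e)`; or `Finset.inf'`). Then `M i ≤ s i`, `M i ≤ M (i+1) + e`, `M j = s j ≤ 0`, `M i ≥ min(0, s j) `...
and for `i ∈ D`: `s i + α ≤ M (i+1) + e`, so `M i = s i`, `M i + α ≤ M (i+1) + e`.
(1) Summing `M i + α [i ∈ D] ≤ M (i+1) + e` over `i ∈ [a, j)`: `M a + |D| α ≤ M j + e (j - a) ≤ e (j-a)`. If `D` is empty the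
claims are trivial. Otherwise start the sum at the smallest element `i₁` of `D`: `M i₁ = s i₁ ≥ 0`, so
`|D| α ≤ e (j - i₁) + s j - s i₁ ≤ e (j - a)`.
(2) For `i ∈ D`, `i > i₁`: `s i - s (i-1) ≤ M i - M (i-1)` (`M i = s i`, `M (i-1) ≤ s (i-1)`) and `M i - M (i-1) + e ≥ 0` for
all `i`; so `∑_{i ∈ D, i > i₁} (s i - s (i-1)) ≤ ∑_{i₁ < i < j} (M i - M (i-1) + e)` = `M (j-1) - M i₁ + e (j-1-i₁)`
`≤ M j + e - M i₁ + e (j-1-i₁) ≤ e (j - i₁) - s i₁`; and `s i₁ - s (i₁-1) ≤ s i₁` (as `s (i₁-1) ≥ 0`, `i₁ ≥ a ≥ 1`).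
Total `≤ e (j - i₁) ≤ e (j - a)`.
Alternative: induction on `j - a` or on the cardinality of `D` (remove the smallest element and apply the
claim with `a` replaced by the next element), with the stronger claims
`|D| α ≤ e (j - i₁) - s i₁` and `∑_{i ∈ D} (s i - s (i-1)) ≤ e (j - i₁)` for the smallest element `i₁`.
-/

set_option autoImplicit false

namespace Pool.Agent.Helper32.AC

private theorem bad_aux (j : ℕ) (s : ℕ → ℝ) (e α : ℝ) (he : 0 ≤ e)
    (hα : 0 < α) (hsj : s j ≤ 0) (D : Finset ℕ) :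
    (∀ i ∈ D, i < j) →
    (∀ i ∈ D, ∀ k, 1 ≤ k → i + k ≤ j → s i + α ≤ s (i + k) + e * (k : ℝ)) →
    ∀ i₁ ∈ D, (∀ i ∈ D, i₁ ≤ i) →
      (D.card : ℝ) * α ≤ e * ((j : ℝ) - (i₁ : ℝ)) - s i₁ ∧
      ∑ i ∈ D, (s i - s (i - 1)) ≤ e * ((j : ℝ) - (i₁ : ℝ)) - s (i₁ - 1) := by
  induction D using Finset.induction_on_min with
  | empty => intro _ _ i₁ hi₁; exact absurd hi₁ (Finset.notMem_empty _)
  | insert b D hb ih =>
    intro hD hbad i₁ hi₁ hmin
    have hbD : b ∉ D := fun h => lt_irrefl _ (hb b h)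
    have hib : i₁ = b := by
      rcases Finset.mem_insert.mp hi₁ with h | h
      · exact h
      · have h1 := hb i₁ h
        have h2 := hmin b (Finset.mem_insert_self _ _)
        omega
    subst hib
    have hbj : i₁ < j := hD i₁ (Finset.mem_insert_self _ _)
    have hbb := hbad i₁ (Finset.mem_insert_self _ _)
    rw [Finset.card_insert_of_notMem hbD, Finset.sum_insert hbD]
    rcases D.eq_empty_or_nonempty with hemp | hne
    · subst hemp
      have h1 := hbb (j - i₁) (by omega) (by omega)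
      have h2 : i₁ + (j - i₁) = j := by omega
      rw [h2, Nat.cast_sub hbj.le] at h1
      constructor
      · simp only [Finset.card_empty]
        push_cast
        linarith
      · simp only [Finset.sum_empty]
        linarith
    · have hm : D.min' hne ∈ D := D.min'_mem hne
      set i₂ := D.min' hne with hi₂
      have hlt : i₁ < i₂ := hb i₂ hm
      have hi₂j : i₂ < j := hD i₂ (Finset.mem_insert_of_mem hm)
      obtain ⟨hA, hB⟩ := ih (fun i hi => hD i (Finset.mem_insert_of_mem hi))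
        (fun i hi => hbad i (Finset.mem_insert_of_mem hi)) i₂ hm
        (fun i hi => D.min'_le i hi)
      constructor
      · have h1 := hbb (i₂ - i₁) (by omega) (by omega)
        have h2 : i₁ + (i₂ - i₁) = i₂ := by omega
        rw [h2, Nat.cast_sub hlt.le] at h1
        push_cast
        linarith
      · have h3 : s i₁ ≤ s (i₂ - 1) + e * ((i₂ : ℝ) - (i₁ : ℝ)) := by
          rcases Nat.lt_or_ge (i₁ + 1) i₂ with h | h
          · have h1 := hbb (i₂ - 1 - i₁) (by omega) (by omega)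
            have h2 : i₁ + (i₂ - 1 - i₁) = i₂ - 1 := by omega
            have h4 : ((i₂ - 1 - i₁ : ℕ) : ℝ) = (i₂ : ℝ) - (i₁ : ℝ) - 1 := by
              rw [Nat.cast_sub (by omega), Nat.cast_sub (by omega)]
              push_cast
              ring
            rw [h2, h4] at h1
            linarith
          · have h5 : i₂ = i₁ + 1 := by omega
            rw [h5]
            have h6 : i₁ + 1 - 1 = i₁ := by omega
            rw [h6]
            push_cast
            linarith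
        linarith

theorem bad_count (a j : ℕ) (ha : 1 ≤ a) (haj : a ≤ j) (s : ℕ → ℝ) (e α : ℝ) (he : 0 ≤ e)
    (hα : 0 < α) (hs : ∀ i, a ≤ i + 1 → i < j → 0 ≤ s i) (hsj : s j ≤ 0) (D : Finset ℕ)
    (hD : ∀ i ∈ D, a ≤ i ∧ i < j)
    (hbad : ∀ i ∈ D, ∀ k, 1 ≤ k → i + k ≤ j → s i + α ≤ s (i + k) + e * (k : ℝ)) :
    (D.card : ℝ) * α ≤ e * ((j : ℝ) - (a : ℝ)) ∧
      ∑ i ∈ D, (s i - s (i - 1)) ≤ e * ((j : ℝ) - (a : ℝ)) := by
  have haj' : (a : ℝ) ≤ (j : ℝ) := by exact_mod_cast haj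
  rcases D.eq_empty_or_nonempty with hemp | hne
  · subst hemp
    have h0 : 0 ≤ e * ((j : ℝ) - (a : ℝ)) := mul_nonneg he (by linarith)
    constructor
    · simpa using h0
    · simpa using h0
  · have hm : D.min' hne ∈ D := D.min'_mem hne
    obtain ⟨hA, hB⟩ := bad_aux j s e α he hα hsj D (fun i hi => (hD i hi).2) hbad
      (D.min' hne) hm (fun i hi => D.min'_le i hi)
    obtain ⟨h1, h2⟩ := hD _ hm
    have h3 : 0 ≤ s (D.min' hne) := hs _ (by omega) h2
    have h4 : 0 ≤ s (D.min' hne - 1) := hs _ (by omega) (by omega)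
    have h5 : (a : ℝ) ≤ ((D.min' hne : ℕ) : ℝ) := by exact_mod_cast h1
    have h6 : e * ((j : ℝ) - ((D.min' hne : ℕ) : ℝ)) ≤ e * ((j : ℝ) - (a : ℝ)) :=
      mul_le_mul_of_nonneg_left (by linarith) he
    constructor
    · linarith
    · linarith

end Pool.Agent.Helper32.AC
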