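import Pool.Agent.Helper32.AC.Bad

/-!
Project AC, module Layer: lower bound for the total gain (real sequences only).

Proof of `sum_pos_part`. With `c = b τ ≥ 0`: `max 0 (y/τ - b) = (y - c)⁺/τ`, and
`(y - c)⁺ ≤ (((y+1-c)⁺)² - ((y-c)⁺)²)/2`; telescoping gives `∑ ≤ ((r-1-c)⁺)²/(2τ)`, and
`((r-1-c)⁺)² ≤ ((r-1)/r) (r-c)²` (trivial if `c ≥ r-1`; otherwise equivalent to `c² ≤ r (r-1)`).

Proof of `layer`. `(g i : ℝ) - 1 = (r - 1) - #{y < r-1 : g i ≤ y + 1}` (from `1 ≤ g i ≤ r`), so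
`∑_{i ∈ [a,j)} (w i - w (i-1)) (g i - 1) = (r-1)(w (j-1) - w (a-1)) - ∑_{y < r-1} ∑_{i ∈ D y} (w i - w (i-1))`,
`D y = {i ∈ [a,j) : g i ≤ y+1}`. For `i ∈ D y`: `g i ≤ y + 1 ≤ r - 1 < r` and `g i - 1 ≤ y`, so `hlook` gives
`s i + α ≤ s (i+k) + k (y/τ - b) ≤ s (i+k) + e k` with `e = max 0 (y/τ - b)`. `bad_count`:
`|D y| ≤ e (j-a)/α`, `∑_{D y} (s i - s (i-1)) ≤ e (j-a)`, so by `hw`
`∑_{i ∈ D y} (w i - w (i-1)) ≤ |D y| u + δ + e (j-a) ≤ e (j-a) (u/α + 1) + δ`. Sum over `y < r-1` and use `sum_pos_part`.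
-/

set_option autoImplicit false

namespace Pool.Agent.Helper32.AC

private theorem sum_pos_aux (τ b : ℝ) (hτ : 0 < τ) (hb : 0 ≤ b) (n : ℕ) :
    ∑ y ∈ Finset.range n, max 0 ((y : ℝ) / τ - b) ≤
      (max 0 ((n : ℝ) - b * τ)) ^ 2 / (2 * τ) := by
  induction n with
  | zero =>
    rw [Finset.sum_range_zero]
    positivity
  | succ n ih =>
    rw [Finset.sum_range_succ]
    have h1 : max 0 ((n : ℝ) / τ - b) = max 0 ((n : ℝ) - b * τ) / τ := by
      rcases le_total 0 ((n : ℝ) - b * τ) with h | h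
      · rw [max_eq_right h, max_eq_right]
        · field_simp
        · have h2 : (n : ℝ) / τ - b = ((n : ℝ) - b * τ) / τ := by field_simp
          rw [h2]
          positivity
      · rw [max_eq_left h, max_eq_left, zero_div]
        have h2 : (n : ℝ) / τ - b = ((n : ℝ) - b * τ) / τ := by field_simp
        rw [h2]
        exact div_nonpos_of_nonpos_of_nonneg h hτ.le
    have h2 : (max 0 ((n : ℝ) - b * τ)) ^ 2 + 2 * max 0 ((n : ℝ) - b * τ) ≤
        (max 0 (((n + 1 : ℕ) : ℝ) - b * τ)) ^ 2 := by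
      push_cast
      rcases le_total 0 ((n : ℝ) - b * τ) with h | h
      · rw [max_eq_right h, max_eq_right (by linarith)]
        nlinarith
      · rw [max_eq_left h]
        have := sq_nonneg (max 0 ((n : ℝ) + 1 - b * τ))
        linarith
    calc _ ≤ (max 0 ((n : ℝ) - b * τ)) ^ 2 / (2 * τ) + max 0 ((n : ℝ) - b * τ) / τ :=
          add_le_add ih h1.le
      _ = ((max 0 ((n : ℝ) - b * τ)) ^ 2 + 2 * max 0 ((n : ℝ) - b * τ)) / (2 * τ) := by
          field_simp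
      _ ≤ _ := div_le_div_of_nonneg_right h2 (by positivity)

theorem sum_pos_part (r : ℕ) (hr : 1 ≤ r) (τ b : ℝ) (hτ : 0 < τ) (hb : 0 ≤ b) :
    ∑ y ∈ Finset.range (r - 1), max 0 ((y : ℝ) / τ - b) ≤
      ((r : ℝ) - 1) / (r : ℝ) * (((r : ℝ) - b * τ) ^ 2 / (2 * τ)) := by
  refine (sum_pos_aux τ b hτ hb (r - 1)).trans ?_
  have hr1 : (1 : ℝ) ≤ (r : ℝ) := by exact_mod_cast hr
  have hr0 : (0 : ℝ) < (r : ℝ) := by linarith
  rw [Nat.cast_sub hr, Nat.cast_one, ← mul_div_assoc]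
  refine div_le_div_of_nonneg_right ?_ (by positivity)
  have hc : 0 ≤ b * τ := by positivity
  rw [div_mul_eq_mul_div, le_div_iff₀ hr0]
  rcases le_total ((r : ℝ) - 1 - b * τ) 0 with h | h
  · rw [max_eq_left h]
    have : 0 ≤ ((r : ℝ) - 1) * ((r : ℝ) - b * τ) ^ 2 :=
      mul_nonneg (by linarith) (sq_nonneg _)
    simpa using this
  · rw [max_eq_right h]
    have h1 : (b * τ) ^ 2 ≤ (r : ℝ) * ((r : ℝ) - 1) := by nlinarith
    nlinarith

private theorem count_eq {r g : ℕ} (h1 : 1 ≤ g) (h2 : g ≤ r) :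
    (g : ℝ) - 1 = ((r : ℝ) - 1) -
      ∑ y ∈ Finset.range (r - 1), (if g ≤ y + 1 then (1 : ℝ) else 0) := by
  have h3 : ∑ y ∈ Finset.range (r - 1), (if g ≤ y + 1 then (1 : ℝ) else 0) =
      (((Finset.range (r - 1)).filter (fun y => g ≤ y + 1)).card : ℝ) := by
    rw [Finset.sum_ite, Finset.sum_const_zero, add_zero, Finset.sum_const, nsmul_eq_mul, mul_one]
  have h4 : (Finset.range (r - 1)).filter (fun y => g ≤ y + 1) = Finset.Ico (g - 1) (r - 1) := by
    ext y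
    simp only [Finset.mem_filter, Finset.mem_range, Finset.mem_Ico]
    omega
  rw [h3, h4, Nat.card_Ico]
  have h5 : r - 1 - (g - 1) = r - g := by omega
  rw [h5, Nat.cast_sub h2]
  ring

theorem layer (a j r : ℕ) (ha : 1 ≤ a) (haj : a < j) (hr : 1 ≤ r) (w s : ℕ → ℝ) (g : ℕ → ℕ)
    (u α τ b δ : ℝ) (hu : 0 ≤ u) (hα : 0 < α) (hτ : 0 < τ) (hb : 0 ≤ b) (hδ : 0 ≤ δ)
    (hmono : ∀ i, a ≤ i → i < j → w (i - 1) ≤ w i)
    (hw : ∀ i, a ≤ i → i < j →
      w i - w (i - 1) ≤ u + (if i = a then δ else 0) + (s i - s (i - 1)))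
    (hs : ∀ i, a ≤ i + 1 → i < j → 0 ≤ s i) (hsj : s j ≤ 0)
    (hg : ∀ i, a ≤ i → i < j → 1 ≤ g i ∧ g i ≤ r)
    (hlook : ∀ i, a ≤ i → i < j → g i < r → ∀ k, 1 ≤ k → i + k ≤ j →
      α + b * (k : ℝ) + s i - s (i + k) ≤ (k : ℝ) * ((g i : ℝ) - 1) / τ) :
    ((r : ℝ) - 1) * (w (j - 1) - w (a - 1) - δ) -
        ((j : ℝ) - (a : ℝ)) * (u / α + 1) *
          (((r : ℝ) - 1) / (r : ℝ) * (((r : ℝ) - b * τ) ^ 2 / (2 * τ))) ≤
      ∑ i ∈ Finset.Ico a j, (w i - w (i - 1)) * ((g i : ℝ) - 1) := by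
  have hja : (0 : ℝ) ≤ (j : ℝ) - (a : ℝ) := by
    have : (a : ℝ) ≤ (j : ℝ) := by exact_mod_cast haj.le
    linarith
  -- telescoping sum
  have htel : ∑ i ∈ Finset.Ico a j, (w i - w (i - 1)) = w (j - 1) - w (a - 1) := by
    have key : ∀ m, a ≤ m → ∑ i ∈ Finset.Ico a m, (w i - w (i - 1)) = w (m - 1) - w (a - 1) := by
      intro m hm
      induction m, hm using Nat.le_induction with
      | base => simp
      | succ m hm ih =>
        rw [Finset.sum_Ico_succ_top hm, ih, Nat.add_sub_cancel]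
        ring
    exact key j haj.le
  -- one layer
  have hlay : ∀ y ∈ Finset.range (r - 1),
      ∑ i ∈ (Finset.Ico a j).filter (fun i => g i ≤ y + 1), (w i - w (i - 1)) ≤
        ((j : ℝ) - (a : ℝ)) * (u / α + 1) * max 0 ((y : ℝ) / τ - b) + δ := by
    intro y hy
    rw [Finset.mem_range] at hy
    set D := (Finset.Ico a j).filter (fun i => g i ≤ y + 1) with hD
    set e := max 0 ((y : ℝ) / τ - b) with he
    have he0 : 0 ≤ e := le_max_left _ _
    have hDm : ∀ i ∈ D, a ≤ i ∧ i < j ∧ g i ≤ y + 1 := by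
      intro i hi
      rw [hD, Finset.mem_filter, Finset.mem_Ico] at hi
      exact ⟨hi.1.1, hi.1.2, hi.2⟩
    obtain ⟨h1, h2⟩ := bad_count a j ha haj.le s e α he0 hα hs hsj D
      (fun i hi => ⟨(hDm i hi).1, (hDm i hi).2.1⟩) (by
        intro i hi k hk hik
        obtain ⟨hi1, hi2, hi3⟩ := hDm i hi
        have h3 := hlook i hi1 hi2 (by omega) k hk hik
        have h4 : (k : ℝ) * ((g i : ℝ) - 1) / τ ≤ (k : ℝ) * (y : ℝ) / τ := by
          refine div_le_div_of_nonneg_right ?_ hτ.le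
          refine mul_le_mul_of_nonneg_left ?_ (Nat.cast_nonneg k)
          have : (g i : ℝ) ≤ (y : ℝ) + 1 := by exact_mod_cast hi3
          linarith
        have h5 : (y : ℝ) / τ - b ≤ e := le_max_right _ _
        have h6 : ((y : ℝ) / τ - b) * (k : ℝ) ≤ e * (k : ℝ) :=
          mul_le_mul_of_nonneg_right h5 (Nat.cast_nonneg k)
        have h7 : (k : ℝ) * (y : ℝ) / τ = (y : ℝ) / τ * (k : ℝ) := by ring
        rw [h7] at h4
        linarith)
    have h3 : ∑ i ∈ D, (w i - w (i - 1)) ≤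
        ∑ i ∈ D, (u + (if i = a then δ else 0) + (s i - s (i - 1))) :=
      Finset.sum_le_sum fun i hi => hw i (hDm i hi).1 (hDm i hi).2.1
    rw [Finset.sum_add_distrib, Finset.sum_add_distrib, Finset.sum_const, nsmul_eq_mul] at h3
    have h4 : ∑ i ∈ D, (if i = a then δ else 0) ≤ δ := by
      rw [Finset.sum_ite_eq']
      split_ifs
      · exact le_rfl
      · exact hδ
    have h5 : (D.card : ℝ) * u ≤ e * ((j : ℝ) - (a : ℝ)) * (u / α) := by
      have h6 : (D.card : ℝ) * u = (D.card : ℝ) * α * (u / α) := by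
        field_simp
      rw [h6]
      exact mul_le_mul_of_nonneg_right h1 (by positivity)
    nlinarith
  -- sum over the layers
  have hsum : ∑ y ∈ Finset.range (r - 1),
      ∑ i ∈ (Finset.Ico a j).filter (fun i => g i ≤ y + 1), (w i - w (i - 1)) ≤
        ((j : ℝ) - (a : ℝ)) * (u / α + 1) *
          (((r : ℝ) - 1) / (r : ℝ) * (((r : ℝ) - b * τ) ^ 2 / (2 * τ))) + ((r : ℝ) - 1) * δ := by
    refine (Finset.sum_le_sum hlay).trans ?_
    rw [Finset.sum_add_distrib, ← Finset.mul_sum, Finset.sum_const, Finset.card_range,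
      nsmul_eq_mul, Nat.cast_sub hr, Nat.cast_one]
    have h1 : 0 ≤ ((j : ℝ) - (a : ℝ)) * (u / α + 1) := by positivity
    have h2 := mul_le_mul_of_nonneg_left (sum_pos_part r hr τ b hτ hb) h1
    linarith
  have hmain : ∑ i ∈ Finset.Ico a j, (w i - w (i - 1)) * ((g i : ℝ) - 1) =
      ((r : ℝ) - 1) * (w (j - 1) - w (a - 1)) - ∑ y ∈ Finset.range (r - 1),
      ∑ i ∈ (Finset.Ico a j).filter (fun i => g i ≤ y + 1), (w i - w (i - 1)) := by
    have h1 : ∀ i ∈ Finset.Ico a j, (w i - w (i - 1)) * ((g i : ℝ) - 1) =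
        ((r : ℝ) - 1) * (w i - w (i - 1)) - ∑ y ∈ Finset.range (r - 1),
          (if g i ≤ y + 1 then (w i - w (i - 1)) else 0) := by
      intro i hi
      rw [Finset.mem_Ico] at hi
      obtain ⟨hg1, hg2⟩ := hg i hi.1 hi.2
      rw [count_eq hg1 hg2, mul_sub, Finset.mul_sum]
      congr 1
      · ring
      · refine Finset.sum_congr rfl fun y _ => ?_
        split_ifs <;> ring
    rw [Finset.sum_congr rfl h1, Finset.sum_sub_distrib, ← Finset.mul_sum, htel, Finset.sum_comm]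
    congr 1
    refine Finset.sum_congr rfl fun y _ => ?_
    rw [Finset.sum_filter]
  rw [hmain]
  linarith

end Pool.Agent.Helper32.AC
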