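import Mathlib

/-!
Project AC, module NumFin: finite checks.
-/

set_option autoImplicit false

namespace Pool.Agent.Helper32.AC

/-- `15 q² · 5 ... ` integer form of `5 q² f(h)`, `h ≥ 1`. -/
def FI (q h : ℤ) : ℤ := 5 * q ^ 2 * h - 37 * q * h - 25 * h ^ 2 + 30 * q

/-- Integer form of `gg`. -/
def GI (q j : ℤ) : ℤ :=
  3 * q ^ 2 * (5 * q - 37) ^ 2 * j - 50 * q * (5 * q - 37) * (j ^ 3 + 3 * j ^ 2 - j) +
    625 * (2 * j ^ 4 + 2 * j ^ 3 - 2 * j ^ 2 + j) - 2700 * q ^ 2 -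
    180 * q ^ 2 * (5 * q - 37) * (j - 2) + 4500 * q * (j ^ 2 - 4 * j + 2)

def chk1 (q j : ℕ) : Bool :=
  let Q : ℤ := q
  let J : ℤ := j
  let t : ℤ := (q / 2 + 3 - 2 * j : ℕ)
  !(decide (38 ≤ q) && decide (9 ≤ j) && decide (2 * j + 1 ≤ q) && decide (j ≤ q / 7 + 1)) ||
    decide (2 * t * (75 * Q ^ 4 + GI Q J) <
      60 * Q ^ 2 * t * FI Q (J - 1) - 1800 * Q ^ 3 * t - 5 * (J - 1) * (5 * Q - 7) * Q ^ 4)

def chk2 (q j : ℕ) : Bool :=
  let Q : ℤ := q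
  let J : ℤ := j
  let K : ℤ := (q / 7 : ℕ)
  let t : ℤ := (q / 2 + 1 - 2 * (q / 7) : ℕ)
  let a : ℤ := J - K
  !(decide (38 ≤ q) && decide (9 ≤ j) && decide (2 * j + 1 ≤ q) && decide (q / 7 + 2 ≤ j)) ||
    decide (2 * t * (75 * Q ^ 4 + GI Q J) <
      60 * Q ^ 2 * t * (FI Q (J - 1) - FI Q a) - 5 * K * (5 * Q - 7) * (Q ^ 2 - 10 * a * t) ^ 2)

theorem fin1 : (List.range 200).all (fun q => (List.range 100).all (fun j => chk1 q j)) = true := by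
  decide +kernel

theorem fin2 : (List.range 200).all (fun q => (List.range 100).all (fun j => chk2 q j)) = true := by
  decide +kernel

end Pool.Agent.Helper32.AC
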