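import Pool.Agent.Helper32.AC.Psi
import Pool.Agent.Helper32.AC.NumFin

/-!
Project AC, module Num: the three numerical inequalities.
-/

set_option autoImplicit false

namespace Pool.Agent.Helper32.AC

open Classical

theorem f_eq_FI {q h : ℕ} (hq : 1 ≤ q) (hh : 1 ≤ h) :
    f q h = ((FI (q : ℤ) (h : ℤ) : ℤ) : ℝ) / (5 * (q : ℝ) ^ 2) := by
  have hq' : (q : ℝ) ≠ 0 := by positivity
  rw [f_pos_eq q hh, FI]
  push_cast
  field_simp
  ring

theorem gg_eq_GI (q j : ℕ) : gg q j = ((GI (q : ℤ) (j : ℤ) : ℤ) : ℝ) := by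
  rw [gg, GI]
  push_cast
  ring

/-- Real form of the second inequality. -/
theorem two_core {q t K X Y G a : ℝ} (hq : 0 < q) (ht : 0 < t)
    (h : 2 * t * (75 * q ^ 4 + G) <
      60 * q ^ 2 * t * (X - Y) - 5 * K * (5 * q - 7) * (q ^ 2 - 10 * a * t) ^ 2) :
    1 + G / (75 * q ^ 4) <
      2 * (X / (5 * q ^ 2) - Y / (5 * q ^ 2) -
        K * (q - 7 / 5) / (12 * t) * (1 - 10 * a * t / q ^ 2) ^ 2) := by
  have e : 2 * (X / (5 * q ^ 2) - Y / (5 * q ^ 2) -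
        K * (q - 7 / 5) / (12 * t) * (1 - 10 * a * t / q ^ 2) ^ 2) - (1 + G / (75 * q ^ 4)) =
      (60 * q ^ 2 * t * (X - Y) - 5 * K * (5 * q - 7) * (q ^ 2 - 10 * a * t) ^ 2 -
        2 * t * (75 * q ^ 4 + G)) / (150 * q ^ 4 * t) := by
    field_simp
    ring
  have h2 : 0 < (60 * q ^ 2 * t * (X - Y) - 5 * K * (5 * q - 7) * (q ^ 2 - 10 * a * t) ^ 2 -
        2 * t * (75 * q ^ 4 + G)) / (150 * q ^ 4 * t) := div_pos (by linarith) (by positivity)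
  linarith

theorem one_core {q t X G j : ℝ} (hq : 0 < q) (ht : 0 < t)
    (h : 2 * t * (75 * q ^ 4 + G) <
      60 * q ^ 2 * t * X - 1800 * q ^ 3 * t - 5 * (j - 1) * (5 * q - 7) * q ^ 4) :
    1 + G / (75 * q ^ 4) <
      2 * (X / (5 * q ^ 2) - 6 / q - (j - 1) * (q - 7 / 5) / (12 * t)) := by
  have e : 2 * (X / (5 * q ^ 2) - 6 / q - (j - 1) * (q - 7 / 5) / (12 * t)) -
        (1 + G / (75 * q ^ 4)) =
      (60 * q ^ 2 * t * X - 1800 * q ^ 3 * t - 5 * (j - 1) * (5 * q - 7) * q ^ 4 -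
        2 * t * (75 * q ^ 4 + G)) / (150 * q ^ 4 * t) := by
    field_simp
    ring
  have h2 : 0 < (60 * q ^ 2 * t * X - 1800 * q ^ 3 * t - 5 * (j - 1) * (5 * q - 7) * q ^ 4 -
        2 * t * (75 * q ^ 4 + G)) / (150 * q ^ 4 * t) := div_pos (by linarith) (by positivity)
  linarith

theorem chk1_of {q j : ℕ} (hq : q < 200) (hj : j < 100) : chk1 q j = true := by
  have h := fin1
  rw [List.all_eq_true] at h
  have h1 := h q (List.mem_range.2 hq)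
  rw [List.all_eq_true] at h1
  exact h1 j (List.mem_range.2 hj)

theorem chk2_of {q j : ℕ} (hq : q < 200) (hj : j < 100) : chk2 q j = true := by
  have h := fin2
  rw [List.all_eq_true] at h
  have h1 := h q (List.mem_range.2 hq)
  rw [List.all_eq_true] at h1
  exact h1 j (List.mem_range.2 hj)

/-- Upper bound for `Ψ` when `q ≥ 200`, with `x = j/q`. -/
theorem psi_le {q x : ℝ} (hq : 200 ≤ q) (hx0 : 0 ≤ x) (hx : x ≤ 1 / 2) :
    (3 * q ^ 2 * (5 * q - 37) ^ 2 * (q * x) -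
      50 * q * (5 * q - 37) * ((q * x) ^ 3 + 3 * (q * x) ^ 2 - (q * x)) +
      625 * (2 * (q * x) ^ 4 + 2 * (q * x) ^ 3 - 2 * (q * x) ^ 2 + (q * x)) -
      2700 * q ^ 2 - 180 * q ^ 2 * (5 * q - 37) * ((q * x) - 2) +
      4500 * q * ((q * x) ^ 2 - 4 * (q * x) + 2)) / (75 * q ^ 4) ≤
    q * x - 10 / 3 * q * x ^ 3 - 134 / 5 * x + 74 / 3 * x ^ 3 - 10 * x ^ 2 + 50 / 3 * x ^ 4 +
      7 / 10 := by
  have hq0 : 0 < q := by linarith
  rw [div_le_iff₀ (by positivity)]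
  have hx2 : x ^ 2 ≤ 1 / 4 := by nlinarith
  have hx3 : x ^ 3 ≤ 1 / 8 := by
    have : x ^ 3 = x * x ^ 2 := by ring
    nlinarith
  have p3 : 0 < q ^ 3 := by positivity
  have e : (q * x - 10 / 3 * q * x ^ 3 - 134 / 5 * x + 74 / 3 * x ^ 3 - 10 * x ^ 2 +
      50 / 3 * x ^ 4 + 7 / 10) * (75 * q ^ 4) -
      (3 * q ^ 2 * (5 * q - 37) ^ 2 * (q * x) -
      50 * q * (5 * q - 37) * ((q * x) ^ 3 + 3 * (q * x) ^ 2 - (q * x)) +
      625 * (2 * (q * x) ^ 4 + 2 * (q * x) ^ 3 - 2 * (q * x) ^ 2 + (q * x)) -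
      2700 * q ^ 2 - 180 * q ^ 2 * (5 * q - 37) * ((q * x) - 2) +
      4500 * q * ((q * x) ^ 2 - 4 * (q * x) + 2)) =
      q ^ 3 * (105 / 2 * q - 11017 * x - 10050 * x ^ 2 - 1250 * x ^ 3 - 1800) +
      q ^ 2 * (16020 + 19850 * x + 1250 * x ^ 2) - q * (9000 + 625 * x) := by
    ring
  have h1 : 0 ≤ q ^ 3 * (105 / 2 * q - 11017 * x - 10050 * x ^ 2 - 1250 * x ^ 3 - 1800) :=
    mul_nonneg p3.le (by nlinarith)
  have h2 : 0 ≤ q * (q * (16020 + 19850 * x + 1250 * x ^ 2) - (9000 + 625 * x)) := by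
    refine mul_nonneg hq0.le ?_
    nlinarith [mul_nonneg hq0.le hx0, mul_nonneg hq0.le (sq_nonneg x)]
  nlinarith

/-- The cubic polynomial in the main term. -/
theorem s1_ge {x : ℝ} (hx0 : 0 ≤ x) (hx : x ≤ 1 / 2) :
    (217 / 10000 : ℝ) ≤ 2 / 7 - 1 / 9 * (64 / 49 - 15 / 7 * x) ^ 2 - x + 10 / 3 * x ^ 3 := by
  nlinarith [mul_nonneg (by linarith : (0 : ℝ) ≤ x + 35 / 100) (sq_nonneg (x - 63 / 250)), hx0, hx]

theorem s0_ge {x : ℝ} (hx0 : 1 / 7 ≤ x) (hx : x ≤ 1 / 2) :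
    (-(21 / 5) : ℝ) ≤ -(2 / 7 * (102 / 5 + 10 * x)) - 17 / 10 + 134 / 5 * x - 74 / 3 * x ^ 3 +
      10 * x ^ 2 - 50 / 3 * x ^ 4 := by
  have h1 : 0 ≤ (x - 1 / 7) * (1 / 2 - x) := mul_nonneg (by linarith) (by linarith)
  have h2 : 0 ≤ x * ((x - 1 / 7) * (1 / 2 - x)) := mul_nonneg (by linarith) h1
  have h3 : 0 ≤ x ^ 2 * ((x - 1 / 7) * (1 / 2 - x)) := mul_nonneg (by positivity) h1
  nlinarith

/-- The second inequality for `q ≥ 200` (real parameters). -/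
theorem two_big {q j K t : ℝ} (hq : 200 ≤ q) (hj : 2 * j + 1 ≤ q) (hK1 : q - 6 ≤ 7 * K)
    (hK2 : 7 * K ≤ q) (hKj : K + 2 ≤ j) (ht1 : (q - 1) / 2 + 1 - 2 * K ≤ t)
    (ht2 : t ≤ q / 2 + 1 - 2 * K) :
    1 + (3 * q ^ 2 * (5 * q - 37) ^ 2 * j -
      50 * q * (5 * q - 37) * (j ^ 3 + 3 * j ^ 2 - j) +
      625 * (2 * j ^ 4 + 2 * j ^ 3 - 2 * j ^ 2 + j) -
      2700 * q ^ 2 - 180 * q ^ 2 * (5 * q - 37) * (j - 2) +
      4500 * q * (j ^ 2 - 4 * j + 2)) / (75 * q ^ 4) <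
      2 * (((j - 1) - (37 / 5 * (j - 1) + 5 * (j - 1) ^ 2 / q - 6) / q) -
        ((j - K) - (37 / 5 * (j - K) + 5 * (j - K) ^ 2 / q - 6) / q) -
        K * (q - 7 / 5) / (12 * t) * (1 - 10 * (j - K) * t / q ^ 2) ^ 2) := by
  have hq0 : 0 < q := by linarith
  obtain ⟨x, hx⟩ : ∃ x, j = q * x := ⟨j / q, by field_simp⟩
  have hx1 : 1 / 7 ≤ x := by
    have : q * (1 / 7) ≤ q * x := by rw [← hx]; linarith
    exact le_of_mul_le_mul_left this hq0
  have hx2 : x ≤ 1 / 2 := by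
    have : q * x ≤ q * (1 / 2) := by rw [← hx]; linarith
    exact le_of_mul_le_mul_left this hq0
  have ht0 : 3 * q / 14 ≤ t := by linarith
  have htp : 0 < t := by linarith
  -- step 1: the loss
  have hloss : K * (q - 7 / 5) / (12 * t) * (1 - 10 * (j - K) * t / q ^ 2) ^ 2 ≤
      q / 18 * (64 / 49 - 15 / 7 * x) ^ 2 := by
    set y : ℝ := 10 * (j - K) / q ^ 2 with hy
    have hy0 : 0 ≤ y := by rw [hy]; apply div_nonneg <;> nlinarith
    have hyt : 10 * (j - K) * t / q ^ 2 = y * t := by rw [hy]; ring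
    rw [hyt]
    have hyt1 : y * t ≤ 1 := by
      rw [hy, div_mul_eq_mul_div, div_le_one (by positivity)]
      have h1 : j - K ≤ (5 * q + 5) / 14 := by linarith
      have h2 : t ≤ (3 * q + 38) / 14 := by linarith
      have h3 : (j - K) * t ≤ (5 * q + 5) / 14 * ((3 * q + 38) / 14) :=
        mul_le_mul h1 h2 htp.le (by linarith)
      nlinarith
    have hy3 : y * (3 * q / 14) ≤ y * t := mul_le_mul_of_nonneg_left ht0 hy0
    have h1 : (1 - y * t) ^ 2 ≤ (1 - y * (3 * q / 14)) ^ 2 :=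
      pow_le_pow_left₀ (by linarith) (by linarith) 2
    have h2 : y * (3 * q / 14) = 15 / 7 * ((j - K) / q) := by
      rw [hy]; field_simp; ring
    have h3 : 1 - y * (3 * q / 14) ≤ 64 / 49 - 15 / 7 * x := by
      rw [h2]
      have : x - 1 / 7 ≤ (j - K) / q := by
        rw [le_div_iff₀ hq0, hx]; nlinarith
      linarith
    have h4 : 0 ≤ 1 - y * (3 * q / 14) := by linarith
    have h5 : (1 - y * t) ^ 2 ≤ (64 / 49 - 15 / 7 * x) ^ 2 :=
      h1.trans (pow_le_pow_left₀ h4 h3 2)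
    have h6 : K * (q - 7 / 5) / (12 * t) ≤ q / 18 := by
      rw [div_le_div_iff₀ (by positivity) (by norm_num)]
      have hK0 : 0 ≤ K := by linarith
      nlinarith [mul_le_mul_of_nonneg_right hK2 (by linarith : (0:ℝ) ≤ q),
        mul_le_mul_of_nonneg_left ht0 hq0.le, mul_nonneg hK0 hq0.le]
    have h7 : 0 ≤ K * (q - 7 / 5) / (12 * t) := by
      apply div_nonneg
      · apply mul_nonneg <;> linarith
      · positivity
    exact mul_le_mul h6 h5 (sq_nonneg _) (by positivity)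
  -- step 2: the weight
  have hwt : (q - 13) / 7 * (1 - (37 / 5 + 10 * x) / q) ≤
      ((j - 1) - (37 / 5 * (j - 1) + 5 * (j - 1) ^ 2 / q - 6) / q) -
        ((j - K) - (37 / 5 * (j - K) + 5 * (j - K) ^ 2 / q - 6) / q) := by
    have e : ((j - 1) - (37 / 5 * (j - 1) + 5 * (j - 1) ^ 2 / q - 6) / q) -
        ((j - K) - (37 / 5 * (j - K) + 5 * (j - K) ^ 2 / q - 6) / q) =
        (K - 1) * (1 - (37 / 5 + 5 * (2 * j - 1 - K) / q) / q) := by
      field_simp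
      ring
    rw [e]
    have h1 : (37 / 5 + 5 * (2 * j - 1 - K) / q) / q ≤ (37 / 5 + 10 * x) / q := by
      apply div_le_div_of_nonneg_right _ hq0.le
      have : 5 * (2 * j - 1 - K) / q ≤ 10 * x := by
        rw [div_le_iff₀ hq0, hx]; nlinarith
      linarith
    have h2 : 0 ≤ 1 - (37 / 5 + 10 * x) / q := by
      rw [sub_nonneg, div_le_one hq0]; linarith
    have h3 : (q - 13) / 7 ≤ K - 1 := by linarith
    calc (q - 13) / 7 * (1 - (37 / 5 + 10 * x) / q)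
        ≤ (K - 1) * (1 - (37 / 5 + 10 * x) / q) := mul_le_mul_of_nonneg_right h3 h2
      _ ≤ (K - 1) * (1 - (37 / 5 + 5 * (2 * j - 1 - K) / q) / q) :=
        mul_le_mul_of_nonneg_left (by linarith) (by linarith)
  have hwt2 : (q - 102 / 5 - 10 * x) / 7 ≤ (q - 13) / 7 * (1 - (37 / 5 + 10 * x) / q) := by
    have : (q - 13) / 7 * (1 - (37 / 5 + 10 * x) / q) - (q - 102 / 5 - 10 * x) / 7 =
        13 * (37 / 5 + 10 * x) / (7 * q) := by
      field_simp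
      ring
    have h2 : 0 ≤ 13 * (37 / 5 + 10 * x) / (7 * q) := by positivity
    linarith
  have hpsi := psi_le (q := q) (x := x) hq (by linarith) hx2
  rw [← hx] at hpsi
  have hs1 := s1_ge (x := x) (by linarith) hx2
  have hs0 := s0_ge hx1 hx2
  have hs2 : 217 / 10000 * 200 ≤
      q * (2 / 7 - 1 / 9 * (64 / 49 - 15 / 7 * x) ^ 2 - x + 10 / 3 * x ^ 3) := by
    nlinarith
  rw [hx] at hpsi hwt hloss ⊢
  linarith

/-- The first inequality for `q ≥ 200` (real parameters). -/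
theorem one_big {q j t : ℝ} (hq : 200 ≤ q) (hj9 : 9 ≤ j) (hj : 7 * j ≤ q + 7)
    (ht1 : (q - 1) / 2 + 3 - 2 * j ≤ t) :
    1 + (3 * q ^ 2 * (5 * q - 37) ^ 2 * j -
      50 * q * (5 * q - 37) * (j ^ 3 + 3 * j ^ 2 - j) +
      625 * (2 * j ^ 4 + 2 * j ^ 3 - 2 * j ^ 2 + j) -
      2700 * q ^ 2 - 180 * q ^ 2 * (5 * q - 37) * (j - 2) +
      4500 * q * (j ^ 2 - 4 * j + 2)) / (75 * q ^ 4) <
      2 * (((j - 1) - (37 / 5 * (j - 1) + 5 * (j - 1) ^ 2 / q - 6) / q) - 6 / q -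
        (j - 1) * (q - 7 / 5) / (12 * t)) := by
  have hq0 : 0 < q := by linarith
  obtain ⟨x, hx⟩ : ∃ x, j = q * x := ⟨j / q, by field_simp⟩
  have hx0 : 0 ≤ x := by
    by_contra hcon
    push Not at hcon
    have : q * x ≤ 0 := by nlinarith
    linarith
  have hx2 : x ≤ 148 / 1000 := by
    have : q * x ≤ q * (148 / 1000) := by rw [← hx]; linarith
    exact le_of_mul_le_mul_left this hq0
  have hc : 0 < 1 - 4 * x := by linarith
  have htp : q * (1 - 4 * x) / 2 ≤ t := by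
    have : q * (1 - 4 * x) / 2 = q / 2 - 2 * j := by rw [hx]; ring
    linarith
  have htp0 : 0 < t := lt_of_lt_of_le (by positivity) htp
  have hloss : (j - 1) * (q - 7 / 5) / (12 * t) ≤ (j - 1) / (6 * (1 - 4 * x)) := by
    rw [div_le_div_iff₀ (by positivity) (by positivity)]
    have h1 : (q - 7 / 5) * (6 * (1 - 4 * x)) ≤ 12 * t := by nlinarith
    have h2 := mul_le_mul_of_nonneg_left h1 (by linarith : 0 ≤ j - 1)
    linarith
  have hwt : (j - 1) * (9593 / 10000) ≤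
      ((j - 1) - (37 / 5 * (j - 1) + 5 * (j - 1) ^ 2 / q - 6) / q) - 6 / q := by
    have e : ((j - 1) - (37 / 5 * (j - 1) + 5 * (j - 1) ^ 2 / q - 6) / q) - 6 / q =
        (j - 1) * (1 - (37 / 5 + 5 * (j - 1) / q) / q) := by
      field_simp
      ring
    rw [e]
    apply mul_le_mul_of_nonneg_left _ (by linarith)
    have h1 : (37 / 5 + 5 * (j - 1) / q) / q ≤ 407 / 10000 := by
      rw [div_le_iff₀ hq0]
      have : 5 * (j - 1) / q ≤ 5 * x := by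
        rw [div_le_iff₀ hq0, hx]; nlinarith
      nlinarith
    linarith
  have hpsi := psi_le (q := q) (x := x) hq hx0 (by linarith)
  rw [← hx] at hpsi
  have hp2 : q * x - 10 / 3 * q * x ^ 3 - 134 / 5 * x + 74 / 3 * x ^ 3 - 10 * x ^ 2 +
      50 / 3 * x ^ 4 + 7 / 10 ≤ j * (1 - 10 / 3 * x ^ 2) + 7 / 10 := by
    have e : q * x - 10 / 3 * q * x ^ 3 = j * (1 - 10 / 3 * x ^ 2) := by rw [hx]; ring
    have h3 : x ^ 3 ≤ x * (148 / 1000) ^ 2 := by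
      have := pow_le_pow_left₀ hx0 hx2 2
      nlinarith
    have h4 : x ^ 4 ≤ x * (148 / 1000) ^ 3 := by
      have := pow_le_pow_left₀ hx0 hx2 3
      nlinarith
    nlinarith [sq_nonneg x]
  -- the scalar inequality
  have hmain : j * (1 - 10 / 3 * x ^ 2) + 17 / 10 <
      2 * ((j - 1) * (9593 / 10000)) - 2 * ((j - 1) / (6 * (1 - 4 * x))) := by
    have e : 2 * ((j - 1) * (9593 / 10000)) - 2 * ((j - 1) / (6 * (1 - 4 * x))) -
        (j * (1 - 10 / 3 * x ^ 2) + 17 / 10) =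
        (j * (3 * (1 - 4 * x) * (9186 / 10000 + 10 / 3 * x ^ 2) - 1) -
          3 * (1 - 4 * x) * (36186 / 10000) + 1) / (3 * (1 - 4 * x)) := by
      field_simp
      ring
    have hnum : 0 < j * (3 * (1 - 4 * x) * (9186 / 10000 + 10 / 3 * x ^ 2) - 1) -
          3 * (1 - 4 * x) * (36186 / 10000) + 1 := by
      have hP : 0 ≤ 3 * (1 - 4 * x) * (9186 / 10000 + 10 / 3 * x ^ 2) - 1 := by
        nlinarith [mul_nonneg hx0 hx0, mul_nonneg hx0 (mul_nonneg hx0 hx0)]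
      rcases le_total x (1 / 10) with h | h
      · have h1 : 9 * (3 * (1 - 4 * x) * (9186 / 10000 + 10 / 3 * x ^ 2) - 1) ≤
            j * (3 * (1 - 4 * x) * (9186 / 10000 + 10 / 3 * x ^ 2) - 1) :=
          mul_le_mul_of_nonneg_right hj9 hP
        nlinarith [mul_nonneg hx0 hx0, mul_nonneg hx0 (mul_nonneg hx0 hx0)]
      · have h0 : 200 * x ≤ j := by rw [hx]; nlinarith
        have h1 : 200 * x * (3 * (1 - 4 * x) * (9186 / 10000 + 10 / 3 * x ^ 2) - 1) ≤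
            j * (3 * (1 - 4 * x) * (9186 / 10000 + 10 / 3 * x ^ 2) - 1) :=
          mul_le_mul_of_nonneg_right h0 hP
        have h2 : 0 ≤ (x - 1 / 10) * (148 / 1000 - x) := mul_nonneg (by linarith) (by linarith)
        nlinarith [mul_nonneg hx0 h2, mul_nonneg (mul_nonneg hx0 hx0) h2]
    have h2 := div_pos hnum (by positivity : (0:ℝ) < 3 * (1 - 4 * x))
    linarith
  linarith

theorem num_one {q j : ℕ} (hq : 38 ≤ q) (hj : 9 ≤ j) (hjq : 2 * j + 1 ≤ q) (hK : j ≤ q / 7 + 1) :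
    1 + gg q j / (75 * (q : ℝ) ^ 4) <
      2 * (f q (j - 1) - 6 / (q : ℝ) -
        ((j : ℝ) - 1) * ((q : ℝ) - 7 / 5) / (12 * ((q / 2 + 3 - 2 * j : ℕ) : ℝ))) := by
  have hj1 : ((j - 1 : ℕ) : ℝ) = (j : ℝ) - 1 := by
    rw [Nat.cast_sub (by omega)]; simp
  have ht : 1 ≤ q / 2 + 3 - 2 * j := by omega
  have ht' : (0 : ℝ) < ((q / 2 + 3 - 2 * j : ℕ) : ℝ) := by exact_mod_cast ht
  rcases lt_or_ge q 200 with hlt | hge
  · have hc := chk1_of hlt (by omega : j < 100)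
    rw [f_eq_FI (by omega) (by omega : 1 ≤ j - 1), gg_eq_GI]
    apply one_core (by positivity) ht'
    simp only [chk1, Bool.or_eq_true, Bool.not_eq_true', Bool.and_eq_false_iff,
      decide_eq_false_iff_not, decide_eq_true_eq] at hc
    have hc2 := hc.resolve_left (by omega)
    have e : (((j - 1 : ℕ) : ℤ)) = (j : ℤ) - 1 := by omega
    rw [e]
    have hc3 := (Int.cast_lt (R := ℝ)).2 hc2
    push_cast at hc3 ⊢
    exact hc3
  · rw [f_pos_eq q (by omega : 1 ≤ j - 1), hj1, gg]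
    apply one_big (by exact_mod_cast hge) (by exact_mod_cast hj)
    · have : 7 * j ≤ q + 7 := by omega
      exact_mod_cast this
    · have h1 : q + 5 ≤ 2 * (q / 2 + 3 - 2 * j) + 4 * j := by omega
      have h2 : (q : ℝ) + 5 ≤ 2 * ((q / 2 + 3 - 2 * j : ℕ) : ℝ) + 4 * (j : ℝ) := by
        exact_mod_cast h1
      linarith

theorem num_two {q j : ℕ} (hq : 38 ≤ q) (hj : 9 ≤ j) (hjq : 2 * j + 1 ≤ q) (hK : q / 7 + 2 ≤ j) :
    1 + gg q j / (75 * (q : ℝ) ^ 4) <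
      2 * (f q (j - 1) - f q (j - q / 7) -
        ((q / 7 : ℕ) : ℝ) * ((q : ℝ) - 7 / 5) / (12 * ((q / 2 + 1 - 2 * (q / 7) : ℕ) : ℝ)) *
          (1 - 10 * ((j - q / 7 : ℕ) : ℝ) * ((q / 2 + 1 - 2 * (q / 7) : ℕ) : ℝ) /
            (q : ℝ) ^ 2) ^ 2) := by
  have hj1 : ((j - 1 : ℕ) : ℝ) = (j : ℝ) - 1 := by
    rw [Nat.cast_sub (by omega)]; simp
  have hjK : ((j - q / 7 : ℕ) : ℝ) = (j : ℝ) - ((q / 7 : ℕ) : ℝ) := by
    rw [Nat.cast_sub (by omega)]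
  have ht : 1 ≤ q / 2 + 1 - 2 * (q / 7) := by omega
  have ht' : (0 : ℝ) < ((q / 2 + 1 - 2 * (q / 7) : ℕ) : ℝ) := by exact_mod_cast ht
  rcases lt_or_ge q 200 with hlt | hge
  · have hc := chk2_of hlt (by omega : j < 100)
    rw [f_eq_FI (by omega) (by omega : 1 ≤ j - 1), f_eq_FI (by omega) (by omega : 1 ≤ j - q / 7),
      gg_eq_GI]
    apply two_core (by positivity) ht'
    simp only [chk2, Bool.or_eq_true, Bool.not_eq_true', Bool.and_eq_false_iff,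
      decide_eq_false_iff_not, decide_eq_true_eq] at hc
    have hc2 := hc.resolve_left (by omega)
    have e : (((j - 1 : ℕ) : ℤ)) = (j : ℤ) - 1 := by omega
    have e2 : (((j - q / 7 : ℕ) : ℤ)) = (j : ℤ) - ((q / 7 : ℕ) : ℤ) := by omega
    rw [e, e2, hjK]
    have hc3 := (Int.cast_lt (R := ℝ)).2 hc2
    push_cast at hc3 ⊢
    exact hc3
  · rw [f_pos_eq q (by omega : 1 ≤ j - 1), f_pos_eq q (by omega : 1 ≤ j - q / 7), hj1, hjK, gg]
    apply two_big (by exact_mod_cast hge)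
    · exact_mod_cast hjq
    · have : q ≤ 7 * (q / 7) + 6 := by omega
      have h2 : (q : ℝ) ≤ 7 * ((q / 7 : ℕ) : ℝ) + 6 := by exact_mod_cast this
      linarith
    · have : 7 * (q / 7) ≤ q := by omega
      exact_mod_cast this
    · exact_mod_cast hK
    · have h1 : q + 1 ≤ 2 * (q / 2 + 1 - 2 * (q / 7)) + 4 * (q / 7) := by omega
      have h2 : (q : ℝ) + 1 ≤
          2 * ((q / 2 + 1 - 2 * (q / 7) : ℕ) : ℝ) + 4 * ((q / 7 : ℕ) : ℝ) := by
        exact_mod_cast h1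
      linarith
    · have h1 : 2 * (q / 2 + 1 - 2 * (q / 7)) + 4 * (q / 7) ≤ q + 2 := by omega
      have h2 : 2 * ((q / 2 + 1 - 2 * (q / 7) : ℕ) : ℝ) + 4 * ((q / 7 : ℕ) : ℝ) ≤
          (q : ℝ) + 2 := by
        exact_mod_cast h1
      linarith

theorem three_core {q j : ℝ} (hq : 38 ≤ q) (hj : 9 ≤ j) (hjq : 2 * j + 1 ≤ q) :
    0 ≤ q ^ 3 * (1455 * j - 1350) + q ^ 2 * (250 * j ^ 3 + 375 * j ^ 2 - 11017 * j + 16020) -
      q * (1850 * j ^ 3 + 10050 * j ^ 2 - 19850 * j + 9000) -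
      625 * (2 * j ^ 4 + 2 * j ^ 3 - 2 * j ^ 2 + j) := by
  have hq0 : 0 ≤ q := by linarith
  have hj0 : 0 ≤ j := by linarith
  -- q^3 part dominates the linear term of q^2
  have h1 : 0 ≤ q ^ 2 * (q * (1455 * j - 1350) - 11017 * j) := by
    apply mul_nonneg (by positivity)
    nlinarith
  -- q^2 j^3 dominates the rest
  have h2 : 0 ≤ q * (250 * q * j ^ 3 - 1850 * j ^ 3 - 10050 * j ^ 2 - 9000) -
      1250 * j ^ 4 - 1250 * j ^ 3 - 625 * j := by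
    have a1 : j ^ 2 * 9 ≤ j ^ 3 := by nlinarith [sq_nonneg j]
    have a2 : 81 * j ≤ j ^ 3 := by nlinarith [sq_nonneg j, mul_nonneg hj0 hj0]
    have a3 : 729 ≤ j ^ 3 := by nlinarith
    have a4 : j ^ 4 = j * j ^ 3 := by ring
    have a5 : 0 ≤ j ^ 3 := by positivity
    have b1 : 1250 * j ^ 4 ≤ 625 * q * j ^ 3 := by rw [a4]; nlinarith
    have b2 : 9500 * j ^ 3 ≤ 250 * q * j ^ 3 := by nlinarith
    have b3 : 0 ≤ 250 * q * j ^ 3 - 1850 * j ^ 3 - 10050 * j ^ 2 - 9000 - 625 * j ^ 3 -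
        1250 * j ^ 3 - 625 * j := by nlinarith
    nlinarith [mul_nonneg hq0 b3, mul_nonneg (by linarith : 0 ≤ q - 1) a5,
      mul_nonneg (by linarith : 0 ≤ q - 1) hj0]
  nlinarith [mul_nonneg (sq_nonneg q) (sq_nonneg j), sq_nonneg q, mul_nonneg hq0 hj0,
    sq_nonneg j]

theorem num_three {q j : ℕ} (hq : 38 ≤ q) (hj : 9 ≤ j) (hjq : 2 * j + 1 ≤ q) :
    gg q j / (75 * (q : ℝ) ^ 4) ≤ f q j := by
  have hq0 : (0 : ℝ) < (q : ℝ) := by positivity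
  have h := three_core (q := (q : ℝ)) (j := (j : ℝ)) (by exact_mod_cast hq)
    (by exact_mod_cast hj) (by exact_mod_cast hjq)
  rw [div_le_iff₀ (by positivity), f_pos_eq q (by omega), gg]
  have e : ((j : ℝ) - (37 / 5 * (j : ℝ) + 5 * (j : ℝ) ^ 2 / (q : ℝ) - 6) / (q : ℝ)) *
      (75 * (q : ℝ) ^ 4) - (3 * (q : ℝ) ^ 2 * (5 * (q : ℝ) - 37) ^ 2 * (j : ℝ) -
    50 * (q : ℝ) * (5 * (q : ℝ) - 37) * ((j : ℝ) ^ 3 + 3 * (j : ℝ) ^ 2 - (j : ℝ)) +
    625 * (2 * (j : ℝ) ^ 4 + 2 * (j : ℝ) ^ 3 - 2 * (j : ℝ) ^ 2 + (j : ℝ)) -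
    2700 * (q : ℝ) ^ 2 - 180 * (q : ℝ) ^ 2 * (5 * (q : ℝ) - 37) * ((j : ℝ) - 2) +
    4500 * (q : ℝ) * ((j : ℝ) ^ 2 - 4 * (j : ℝ) + 2)) =
      (q : ℝ) ^ 3 * (1455 * (j : ℝ) - 1350) +
        (q : ℝ) ^ 2 * (250 * (j : ℝ) ^ 3 + 375 * (j : ℝ) ^ 2 - 11017 * (j : ℝ) + 16020) -
      (q : ℝ) * (1850 * (j : ℝ) ^ 3 + 10050 * (j : ℝ) ^ 2 - 19850 * (j : ℝ) + 9000) -
      625 * (2 * (j : ℝ) ^ 4 + 2 * (j : ℝ) ^ 3 - 2 * (j : ℝ) ^ 2 + (j : ℝ)) := by
    field_simp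
    ring
  linarith

end Pool.Agent.Helper32.AC
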