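import Pool.Agent.Helper32.AC.Defs

/-!
Project AC, module Pair: pair counting in `M = ball A j S`.

Proof of `pair_inter`. For `w ≠ u` in `M` not both `u ∈ ball A R {w}` and `w ∈ ball A R {u}` (`NoShort.not_both`,
`R + R < q + 1`). Count ordered pairs of `M × M` as in helper24's `pair_count` (CH/PairCount.lean), with
`|ball A R {w} ∩ M| = ∑_{u ∈ M} [u ∈ ball A R {w}]`.

Proof of `pair_ineq`. `R = q/2`, `N = |M|`, `Φ = r f(j)`, `m = |S|`, `W i = ball A i S`. Lower bounds for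
`b w = |ball A R {w} ∩ M|`, `w ∈ M`:
 * `w ∈ W i \ W (i-1)`, `1 ≤ i < j`: there is `Z ⊆ ball A (R-(j-i)) {w} ∩ W i` with `|Z| = g i` (`1 ≤ g i ≤ r`);
   `ball A (j-i) Z ⊆ ball A R {w}` (`ball_add`, `j ≤ R`) and `⊆ ball A (j-i) (W i) = M`; `hP (j-i)`:
   `b w ≥ g i + r f(j-i)`.
 * `w ∈ S`, `m ≥ 2`: `F.hmin {w}`: `|ball A j {w}| ≥ 1 + Φ`, and `ball A j {w} ⊆ M ∩ ball A R {w}` (`j ≤ R`): `b w ≥ 1 + Φ`.
 * `w ∈ S`, `m = 1`: `S = {w}`, `M = ball A j {w} ⊆ ball A R {w}`: `b w = N`.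
 * all `w ∈ M`: `b w ≥ 1`.
`M` is the disjoint union of `S = W 0`, the `W i \ W (i-1)` (`1 ≤ i < j`) and `M \ W (j-1)` (sum over `M` by induction on the
levels, or `Finset.sum_sdiff` repeatedly), `|W i \ W (i-1)| = w i - w (i-1)`. So
`∑_{w ∈ M} (b w - 1) ≥ X + Σ`, `Σ = ∑_{i=1}^{j-1} (w i - w (i-1)) (g i - 1 + r f(j-i))`, `X = m Φ` (`m ≥ 2`), `X = N - 1` (`m = 1`).
`pair_inter`: `2 ∑ b w ≤ N (N+1)`, so `2 (X + Σ) ≤ N (N-1)`. By `hfail` `N < m + Φ`, `N ≥ 1`:
 `m ≥ 2`: `2 Σ ≤ N (N-1) - 2 m Φ < (m+Φ)(m+Φ-1) - 2 m Φ = m² - m + Φ² - Φ`.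
 `m = 1`: `2 Σ ≤ N (N-1) - 2 (N-1) = (N-1)(N-2) < Φ (Φ-1)`: `0 ≤ N - 1 < Φ`, and `Φ > 1` (`Φ = r f(j) ≥ f(j) ≥ 2`: `j ≥ 9`,
 `q ≥ 38`, so `f(j) = j - (7.4 j + 5 j²/q - 6)/q ≥ j (1 - (7.4 + 2.5)/38) > 2`).
-/

set_option autoImplicit false

namespace Pool.Agent.Helper32.AC

open Classical
open Pool.Agent.Helper24.CH

variable {V : Type} [Fintype V] {A : V → V → Prop}

omit [Fintype V] in
private theorem inter_card_eq_sum {W B : Finset V} :
    (B ∩ W).card = ∑ u ∈ W, (if u ∈ B then 1 else 0) := by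
  rw [Finset.sum_ite_mem, Finset.sum_const, smul_eq_mul, mul_one, Finset.inter_comm]

theorem pair_inter {q R : ℕ} (hg : NoShort A (q + 1)) (hR : 2 * R ≤ q) (M : Finset V) :
    2 * ∑ w ∈ M, (ball A R {w} ∩ M).card ≤ M.card * (M.card + 1) := by
  have e1 : ∑ w ∈ M, (ball A R {w} ∩ M).card
      = ∑ w ∈ M, ∑ u ∈ M, (if u ∈ ball A R {w} then 1 else 0) :=
    Finset.sum_congr rfl fun w _ => inter_card_eq_sum
  have e2 : ∑ w ∈ M, (ball A R {w} ∩ M).card
      = ∑ w ∈ M, ∑ u ∈ M, (if w ∈ ball A R {u} then 1 else 0) := by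
    rw [Finset.sum_comm]
    exact Finset.sum_congr rfl fun w _ => inter_card_eq_sum
  have e0 : 2 * ∑ w ∈ M, (ball A R {w} ∩ M).card
      = ∑ w ∈ M, ∑ u ∈ M, (if u ∈ ball A R {w} then 1 else 0)
        + ∑ w ∈ M, ∑ u ∈ M, (if w ∈ ball A R {u} then 1 else 0) := by
    rw [← e1, ← e2]; ring
  rw [e0, ← Finset.sum_add_distrib]
  have e3 : M.card * (M.card + 1) = ∑ w ∈ M, ∑ u ∈ M, (1 + if w = u then 1 else 0) := by
    have : ∀ w ∈ M, ∑ u ∈ M, (1 + if w = u then 1 else 0) = M.card + 1 := by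
      intro w hw
      rw [Finset.sum_add_distrib, Finset.sum_const, smul_eq_mul, mul_one, Finset.sum_ite_eq,
        if_pos hw]
    rw [Finset.sum_congr rfl this, Finset.sum_const, smul_eq_mul]
  rw [e3]
  refine Finset.sum_le_sum fun w hw => ?_
  rw [← Finset.sum_add_distrib]
  refine Finset.sum_le_sum fun u hu => ?_
  by_cases hwu : w = u
  · rw [if_pos hwu]
    split_ifs <;> omega
  · rw [if_neg hwu]
    by_cases ha : u ∈ ball A R {w}
    · have hb : w ∉ ball A R {u} := hg.not_both (by omega) hwu ha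
      rw [if_pos ha, if_neg hb]
    · rw [if_neg ha]
      split_ifs <;> omega

/-- `1 < f q j` in the range of a minimal failure. -/
private theorem one_lt_f {q j : ℕ} (hq : 38 ≤ q) (hj : 9 ≤ j) (hjq : 2 * j + 1 ≤ q) :
    1 < f q j := by
  have hq' : (38 : ℝ) ≤ q := by exact_mod_cast hq
  have hj' : (9 : ℝ) ≤ j := by exact_mod_cast hj
  have hjq' : 2 * (j : ℝ) + 1 ≤ q := by exact_mod_cast hjq
  have hq0 : (0 : ℝ) < q := by linarith
  rw [f_pos_eq q (by omega : 1 ≤ j)]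
  have h1 : 5 * (j : ℝ) ^ 2 / (q : ℝ) ≤ 5 / 2 * j := by
    rw [div_le_iff₀ hq0]
    nlinarith
  have h2 : (37 / 5 * (j : ℝ) + 5 * (j : ℝ) ^ 2 / (q : ℝ) - 6) / (q : ℝ) ≤ 99 / 380 * j := by
    rw [div_le_iff₀ hq0]
    nlinarith
  linarith

/-- The lower bound on the layers. -/
private theorem layer_bound {q r j : ℕ} {S : Finset V} (F : Fail A q r j S) {g i : ℕ}
    (hi : 1 ≤ i) (hij : i < j) (h1 : 1 ≤ g) (hr : g ≤ r) {w : V}
    (hw : g ≤ (ball A (q / 2 - (j - i)) {w} ∩ ball A i S).card) :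
    (g : ℝ) + (r : ℝ) * f q (j - i) ≤ ((ball A (q / 2) {w} ∩ ball A j S).card : ℝ) := by
  have hjq := F.hjq
  obtain ⟨Z, hZ, hZc⟩ := Finset.exists_subset_card_eq hw
  have hZne : Z.Nonempty := by
    rw [← Finset.card_pos, hZc]; omega
  have hP := F.hP (j - i) (by omega) (by omega) Z hZne (by omega)
  rw [hZc] at hP
  refine hP.trans ?_
  have hsub : ball A (j - i) Z ⊆ ball A (q / 2) {w} ∩ ball A j S := by
    refine Finset.subset_inter ?_ ?_
    · have h2 : q / 2 = (j - i) + (q / 2 - (j - i)) := by omega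
      rw [h2, Pool.Agent.Helper24.CH.ball_add]
      exact ball_mono (hZ.trans Finset.inter_subset_left) _
    · have h2 : j = (j - i) + i := by omega
      have h3 : ball A j S = ball A (j - i) (ball A i S) := by
        rw [← Pool.Agent.Helper24.CH.ball_add]
        exact congrArg (fun t => ball A t S) h2
      rw [h3]
      exact ball_mono (hZ.trans Finset.inter_subset_right) _
  exact_mod_cast Finset.card_le_card hsub

/-- Telescoping over the layers. -/
private theorem layers_sum {q r j : ℕ} {S : Finset V} (F : Fail A q r j S) (g : ℕ → ℕ)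
    (hg : ∀ i, 1 ≤ i → i < j → 1 ≤ g i ∧ g i ≤ r ∧
      ∀ w ∈ ball A i S, g i ≤ (ball A (q / 2 - (j - i)) {w} ∩ ball A i S).card) (n : ℕ)
    (hn : n < j) :
    ∑ w ∈ S, (((ball A (q / 2) {w} ∩ ball A j S).card : ℝ) - 1) +
      ∑ i ∈ Finset.Ico 1 (n + 1), (((ball A i S).card : ℝ) - ((ball A (i - 1) S).card : ℝ)) *
          ((g i : ℝ) - 1 + (r : ℝ) * f q (j - i)) ≤
      ∑ w ∈ ball A n S, (((ball A (q / 2) {w} ∩ ball A j S).card : ℝ) - 1) := by
  induction n with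
  | zero => simp [ball_zero]
  | succ n ih =>
    have ih' := ih (by omega)
    have hsub : ball A n S ⊆ ball A (n + 1) S := ball_subset_ball_of_le (Nat.le_succ n) S
    rw [← Finset.sum_sdiff hsub, Finset.sum_Ico_succ_top (by omega : 1 ≤ n + 1)]
    have h1 := hg (n + 1) (by omega) hn
    have h2 : (((ball A (n + 1) S).card : ℝ) - ((ball A (n + 1 - 1) S).card : ℝ)) *
          ((g (n + 1) : ℝ) - 1 + (r : ℝ) * f q (j - (n + 1))) ≤
        ∑ w ∈ ball A (n + 1) S \ ball A n S,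
          (((ball A (q / 2) {w} ∩ ball A j S).card : ℝ) - 1) := by
      have h3 : ∀ w ∈ ball A (n + 1) S \ ball A n S,
          ((g (n + 1) : ℝ) - 1 + (r : ℝ) * f q (j - (n + 1))) ≤
          (((ball A (q / 2) {w} ∩ ball A j S).card : ℝ) - 1) := by
        intro w hw
        have hw' : w ∈ ball A (n + 1) S := (Finset.mem_sdiff.1 hw).1
        have := layer_bound F (by omega : 1 ≤ n + 1) hn h1.1 h1.2.1 (h1.2.2 w hw')
        linarith
      have h4 := Finset.card_nsmul_le_sum _ _ _ h3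
      rw [nsmul_eq_mul, Finset.card_sdiff_of_subset hsub,
        Nat.cast_sub (Finset.card_le_card hsub)] at h4
      simpa using h4
    linarith

theorem pair_ineq {q r j : ℕ} {S : Finset V} (F : Fail A q r j S) (g : ℕ → ℕ)
    (hg : ∀ i, 1 ≤ i → i < j → 1 ≤ g i ∧ g i ≤ r ∧
      ∀ w ∈ ball A i S, g i ≤ (ball A (q / 2 - (j - i)) {w} ∩ ball A i S).card) :
    2 * ∑ i ∈ Finset.Ico 1 j,
        (((ball A i S).card : ℝ) - ((ball A (i - 1) S).card : ℝ)) *
          ((g i : ℝ) - 1 + (r : ℝ) * f q (j - i)) <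
      (S.card : ℝ) ^ 2 - (S.card : ℝ) + ((r : ℝ) * f q j) ^ 2 - (r : ℝ) * f q j := by
  have hj := F.hj
  have hjq := F.hjq
  have hq := F.hq
  have hr := F.hr
  have hfail := F.hfail
  have hjR : j ≤ q / 2 := by omega
  -- the pair count
  have hpair := pair_inter F.hg (by omega : 2 * (q / 2) ≤ q) (ball A j S)
  have hpair' : 2 * ∑ w ∈ ball A j S, ((ball A (q / 2) {w} ∩ ball A j S).card : ℝ) ≤
      ((ball A j S).card : ℝ) * (((ball A j S).card : ℝ) + 1) := by exact_mod_cast hpair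
  -- the layers
  have hlay := layers_sum F g hg (j - 1) (by omega)
  rw [show j - 1 + 1 = j by omega] at hlay
  -- every vertex contributes at least one
  have hone : ∀ w ∈ ball A j S, (0 : ℝ) ≤ ((ball A (q / 2) {w} ∩ ball A j S).card : ℝ) - 1 := by
    intro w hw
    have h1 : 1 ≤ (ball A (q / 2) {w} ∩ ball A j S).card := by
      rw [Nat.one_le_iff_ne_zero, ← Nat.pos_iff_ne_zero, Finset.card_pos]
      exact ⟨w, Finset.mem_inter.2 ⟨subset_ball _ _ (Finset.mem_singleton_self w), hw⟩⟩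
    have h2 : (1 : ℝ) ≤ ((ball A (q / 2) {w} ∩ ball A j S).card : ℝ) := by exact_mod_cast h1
    linarith
  have hmon : ∑ w ∈ ball A (j - 1) S, (((ball A (q / 2) {w} ∩ ball A j S).card : ℝ) - 1) ≤
      ∑ w ∈ ball A j S, (((ball A (q / 2) {w} ∩ ball A j S).card : ℝ) - 1) :=
    Finset.sum_le_sum_of_subset_of_nonneg (ball_subset_ball_of_le (by omega) S)
      fun w hw _ => hone w hw
  have hsum : ∑ w ∈ ball A j S, (((ball A (q / 2) {w} ∩ ball A j S).card : ℝ) - 1) =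
      ∑ w ∈ ball A j S, ((ball A (q / 2) {w} ∩ ball A j S).card : ℝ) -
        ((ball A j S).card : ℝ) := by
    rw [Finset.sum_sub_distrib, Finset.sum_const, nsmul_eq_mul, mul_one]
  -- the numbers
  have hN1 : (1 : ℝ) ≤ ((ball A j S).card : ℝ) := by
    have h1 : 1 ≤ (ball A j S).card := by
      rw [Nat.one_le_iff_ne_zero, ← Nat.pos_iff_ne_zero, Finset.card_pos]
      exact F.hS.mono (subset_ball j S)
    exact_mod_cast h1
  have hf1 : 1 < f q j := one_lt_f hq hj hjq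
  have hr1 : (1 : ℝ) ≤ r := by exact_mod_cast hr
  have hPhi : 1 < (r : ℝ) * f q j := by nlinarith
  obtain ⟨Phi, hPhidef⟩ : ∃ Phi : ℝ, Phi = (r : ℝ) * f q j := ⟨_, rfl⟩
  obtain ⟨N, hNdef⟩ : ∃ N : ℝ, N = ((ball A j S).card : ℝ) := ⟨_, rfl⟩
  obtain ⟨m, hmdef⟩ : ∃ m : ℝ, m = (S.card : ℝ) := ⟨_, rfl⟩
  obtain ⟨T, hT⟩ : ∃ T : ℝ, T = ∑ i ∈ Finset.Ico 1 j,
      (((ball A i S).card : ℝ) - ((ball A (i - 1) S).card : ℝ)) *
        ((g i : ℝ) - 1 + (r : ℝ) * f q (j - i)) := ⟨_, rfl⟩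
  rw [← hPhidef] at hPhi hfail ⊢
  rw [← hNdef] at hpair' hsum hN1 hfail
  rw [← hmdef] at hfail ⊢
  rw [← hT] at hlay ⊢
  have hmpos : 1 ≤ S.card := Finset.card_pos.2 F.hS
  rcases Nat.lt_or_ge 1 S.card with hm2 | hm1
  · -- at least two centres
    have hX : m * Phi ≤ ∑ w ∈ S, (((ball A (q / 2) {w} ∩ ball A j S).card : ℝ) - 1) := by
      have h3 : ∀ w ∈ S, Phi ≤ (((ball A (q / 2) {w} ∩ ball A j S).card : ℝ) - 1) := by
        intro w hw
        have h4 := F.hmin {w} (Finset.singleton_nonempty w) (by rw [Finset.card_singleton]; omega)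
        rw [Finset.card_singleton, ← hPhidef] at h4
        have h5 : ball A j {w} ⊆ ball A (q / 2) {w} ∩ ball A j S :=
          Finset.subset_inter (ball_subset_ball_of_le hjR _)
            (ball_mono (Finset.singleton_subset_iff.2 hw) j)
        have h6 : ((ball A j {w}).card : ℝ) ≤
            ((ball A (q / 2) {w} ∩ ball A j S).card : ℝ) := by
          exact_mod_cast Finset.card_le_card h5
        push_cast at h4
        linarith
      have h4 := Finset.card_nsmul_le_sum _ _ _ h3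
      rw [nsmul_eq_mul, ← hmdef] at h4
      exact h4
    have hm0 : (0 : ℝ) ≤ m := by rw [hmdef]; positivity
    have h7 : 0 < (m + Phi - N) * (m + Phi + N - 1) := by
      apply mul_pos
      · linarith
      · linarith
    nlinarith
  · -- one centre
    have hc1 : S.card = 1 := by omega
    obtain ⟨x, hx⟩ := Finset.card_eq_one.1 hc1
    have hm : m = 1 := by rw [hmdef, hc1]; norm_num
    have hX : N - 1 ≤ ∑ w ∈ S, (((ball A (q / 2) {w} ∩ ball A j S).card : ℝ) - 1) := by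
      have h3 : ∑ w ∈ S, (((ball A (q / 2) {w} ∩ ball A j S).card : ℝ) - 1) =
          ((ball A (q / 2) {x} ∩ ball A j S).card : ℝ) - 1 := by
        conv_lhs => rw [hx]
        rw [Finset.sum_singleton, hx]
      rw [h3]
      have h5 : ball A j S ⊆ ball A (q / 2) {x} ∩ ball A j S := by
        refine Finset.subset_inter ?_ (Finset.Subset.refl _)
        rw [hx]
        exact ball_subset_ball_of_le hjR _
      have h6 : N ≤ ((ball A (q / 2) {x} ∩ ball A j S).card : ℝ) := by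
        rw [hNdef]
        exact_mod_cast Finset.card_le_card h5
      linarith
    have h7 : 0 < (Phi - (N - 1)) * (Phi + (N - 1) - 1) := by
      apply mul_pos
      · linarith
      · linarith
    rw [hm]
    nlinarith

end Pool.Agent.Helper32.AC
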