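import Pool.Agent.Helper32.AC.Defs

/-!
Project AC, module Psi: closed form of the convolution sum.

`gg q j` is `75 q⁴ (f(j)² - 2 ∑_{i=1}^{j-1} (f(i) - f(i-1)) f(j-i))`.

Proof of `psi_closed`. For `h ≥ 1`, `f h = (6 + A h - b h²)/q` with `A = q - 37/5`, `b = 5/q`, and `f 0 = 0`. The term `i = 1` is
`f 1 f(j-1)`; for `i ≥ 2` `f i - f (i-1) = (A - b (2 i - 1))/q`. Reindex `l = j - i` or prove the closed form of
`∑_{i=1}^{j-1}` (for fixed real parameter in place of `j` inside the summand, i.e. for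
`∑_{i ∈ Ico 2 n} (A - b(2i-1)) (6 + A (J-i) - b (J-i)²)` with a real `J`) by induction on `n`, then put `n = j`, `J = j`.
The identity was checked numerically.

Proof of `abel`. `∑_{i ∈ Ico 1 j} (s i - s (i-1)) F (j-i) = ∑_{i ∈ Ico 1 j} s i (F (j-i) - F (j-i-1))` when `s 0 = 0` and
`F 0 = 0` (summation by parts; e.g. compare `∑ s i F(j-i)` and `∑ s (i-1) F (j-i)`, `Finset.sum_Ico_succ_top`,
`Finset.sum_Ico_eq_sum_range`, or induction on `j` for general `F` shifted).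
-/

set_option autoImplicit false

namespace Pool.Agent.Helper32.AC

open Classical

noncomputable section

/-- `75 q⁴` times the quantity `Ψ`. -/
def gg (q j : ℕ) : ℝ :=
  3 * (q : ℝ) ^ 2 * (5 * (q : ℝ) - 37) ^ 2 * (j : ℝ) -
    50 * (q : ℝ) * (5 * (q : ℝ) - 37) * ((j : ℝ) ^ 3 + 3 * (j : ℝ) ^ 2 - (j : ℝ)) +
    625 * (2 * (j : ℝ) ^ 4 + 2 * (j : ℝ) ^ 3 - 2 * (j : ℝ) ^ 2 + (j : ℝ)) -
    2700 * (q : ℝ) ^ 2 - 180 * (q : ℝ) ^ 2 * (5 * (q : ℝ) - 37) * ((j : ℝ) - 2) +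
    4500 * (q : ℝ) * ((j : ℝ) ^ 2 - 4 * (j : ℝ) + 2)

private theorem f_form (q : ℕ) {h : ℕ} (hq : 1 ≤ q) (hh : 1 ≤ h) :
    f q h = (6 + ((q : ℝ) - 37 / 5) * (h : ℝ) - 5 / (q : ℝ) * (h : ℝ) ^ 2) / (q : ℝ) := by
  have hq' : (q : ℝ) ≠ 0 := by positivity
  rw [f_pos_eq q hh]
  field_simp
  ring

private theorem sum_form (A b J : ℝ) (n : ℕ) (hn : 2 ≤ n) :
    ∑ i ∈ Finset.Ico 2 n, (A - b * (2 * (i : ℝ) - 1)) *
      (6 + A * (J - (i : ℝ)) - b * (J - (i : ℝ)) ^ 2) =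
    (A + b) * (6 + A * J - b * J ^ 2) * ((n : ℝ) - 2) +
      ((A + b) * (-(A - 2 * b * J)) + (-2 * b) * (6 + A * J - b * J ^ 2)) *
        ((n : ℝ) * ((n : ℝ) - 1) / 2 - 1) +
      ((A + b) * (-b) + (-2 * b) * (-(A - 2 * b * J))) *
        (((n : ℝ) - 1) * (n : ℝ) * (2 * (n : ℝ) - 1) / 6 - 1) +
      (-2 * b) * (-b) * (((n : ℝ) * ((n : ℝ) - 1) / 2) ^ 2 - 1) := by
  induction n, hn using Nat.le_induction with
  | base => norm_num
  | succ n hn ih =>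
    rw [Finset.sum_Ico_succ_top hn, ih]
    push_cast
    ring

theorem psi_closed {q j : ℕ} (hq : 1 ≤ q) (hj : 2 ≤ j) :
    f q j ^ 2 - 2 * ∑ i ∈ Finset.Ico 1 j, (f q i - f q (i - 1)) * f q (j - i) =
      gg q j / (75 * (q : ℝ) ^ 4) := by
  have hq' : (q : ℝ) ≠ 0 := by positivity
  have h1 : ∑ i ∈ Finset.Ico 1 j, (f q i - f q (i - 1)) * f q (j - i) =
      f q 1 * f q (j - 1) + (∑ i ∈ Finset.Ico 2 j,
        (((q : ℝ) - 37 / 5) - 5 / (q : ℝ) * (2 * (i : ℝ) - 1)) *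
        (6 + ((q : ℝ) - 37 / 5) * ((j : ℝ) - (i : ℝ)) -
          5 / (q : ℝ) * ((j : ℝ) - (i : ℝ)) ^ 2)) / (q : ℝ) ^ 2 := by
    rw [Finset.sum_eq_sum_Ico_succ_bot (by omega : 1 < j), Finset.sum_div]
    congr 1
    · rw [Nat.sub_self, f_zero, sub_zero]
    · apply Finset.sum_congr rfl
      intro i hi
      rw [Finset.mem_Ico] at hi
      rw [f_form q hq (by omega : 1 ≤ i), f_form q hq (by omega : 1 ≤ i - 1),
        f_form q hq (by omega : 1 ≤ j - i), Nat.cast_sub (by omega : 1 ≤ i),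
        Nat.cast_sub (by omega : i ≤ j)]
      push_cast
      field_simp
      ring
  rw [h1, sum_form _ _ _ j hj, f_form q hq (by omega : 1 ≤ j), f_form q hq (le_refl 1),
    f_form q hq (by omega : 1 ≤ j - 1), Nat.cast_sub (by omega : 1 ≤ j), gg]
  push_cast
  field_simp
  ring

theorem abel (j : ℕ) (hj : 1 ≤ j) (s F : ℕ → ℝ) (hs : s 0 = 0) (hF : F 0 = 0) :
    ∑ i ∈ Finset.Ico 1 j, (s i - s (i - 1)) * F (j - i) =
      ∑ i ∈ Finset.Ico 1 j, s i * (F (j - i) - F (j - i - 1)) := by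
  obtain ⟨k, rfl⟩ : ∃ k, j = k + 1 := ⟨j - 1, by omega⟩
  have e1 : ∑ i ∈ Finset.Ico 1 (k + 1), s (i - 1) * F (k + 1 - i) =
      ∑ i ∈ Finset.range k, s i * F (k - i) := by
    rw [Finset.sum_Ico_eq_sum_range]
    apply Finset.sum_congr (by simp)
    intro i _
    congr 2 <;> omega
  have e2 : ∑ i ∈ Finset.Ico 1 (k + 1), s i * F (k + 1 - i - 1) =
      ∑ i ∈ Finset.range k, s i * F (k - i) := by
    have h3 : ∑ i ∈ Finset.range (k + 1), s i * F (k - i) =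
        ∑ i ∈ Finset.range k, s i * F (k - i) := by
      rw [Finset.sum_range_succ, Nat.sub_self, hF, mul_zero, add_zero]
    rw [← h3, Finset.range_eq_Ico, Finset.sum_eq_sum_Ico_succ_bot (by omega : 0 < k + 1), hs,
      zero_mul, zero_add]
    apply Finset.sum_congr rfl
    intro i _
    congr 2
    omega
  simp only [sub_mul, mul_sub, Finset.sum_sub_distrib]
  rw [e1, e2]

end

end Pool.Agent.Helper32.AC
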