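import Pool.Agent.Helper32.AC.Level
import Pool.Agent.Helper32.AC.Pair
import Pool.Agent.Helper32.AC.Layer
import Pool.Agent.Helper32.AC.Psi
import Pool.Agent.Helper32.AC.Num

/-!
Project AC: a minimal failure of the growth claim is impossible.
-/

set_option autoImplicit false

namespace Pool.Agent.Helper32.AC

open Classical
open Pool.Agent.Helper24.CH

noncomputable section

variable {V : Type} [Fintype V] {A : V → V → Prop}

/-- The surplus of the ball of radius `i`. -/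
def ss (A : V → V → Prop) (q r : ℕ) (S : Finset V) (i : ℕ) : ℝ :=
  ((ball A i S).card : ℝ) - (S.card : ℝ) - (r : ℝ) * f q i

theorem ss_zero (q r : ℕ) (S : Finset V) : ss A q r S 0 = 0 := by
  simp [ss, ball_zero, f_zero]

theorem Fail.ss_nonneg {q r j : ℕ} {S : Finset V} (F : Fail A q r j S) {i : ℕ} (hi : i < j) :
    0 ≤ ss A q r S i := by
  rcases Nat.eq_zero_or_pos i with h | h
  · subst h
    rw [ss_zero]
  · have := F.hP i h hi S F.hS F.hSr
    rw [ss]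
    linarith

theorem Fail.ss_last {q r j : ℕ} {S : Finset V} (F : Fail A q r j S) : ss A q r S j ≤ 0 := by
  have := F.hfail
  rw [ss]
  linarith

theorem look {q r j : ℕ} {S : Finset V} (F : Fail A q r j S) (g : ℕ → ℕ)
    (hg : ∀ i, 1 ≤ i → i < j →
      1 ≤ g i ∧ g i ≤ r ∧
      (∀ w ∈ ball A i S, g i ≤ (ball A (q / 2 - (j - i)) {w} ∩ ball A i S).card) ∧
      (g i < r → ∀ k, 1 ≤ k → i + k ≤ j →
        (((q / 2 - (j - i)) / k : ℕ) : ℝ) * ((r : ℝ) * f q k -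
          (((ball A (i + k) S).card : ℝ) - ((ball A i S).card : ℝ))) ≤ (g i : ℝ) - 1))
    {i k τ : ℕ} {b : ℝ} (hi : 1 ≤ i) (hij : i < j) (hk : 1 ≤ k) (hkj : i + k ≤ j)
    (hτ : 1 ≤ τ) (hτ' : τ + 2 * (j - i) ≤ q / 2 + 1)
    (hb : b ≤ 10 * (r : ℝ) * (i : ℝ) / (q : ℝ) ^ 2) (hgi : g i < r) :
    6 * (r : ℝ) / (q : ℝ) + b * (k : ℝ) + ss A q r S i - ss A q r S (i + k) ≤
      (k : ℝ) * ((g i : ℝ) - 1) / (τ : ℝ) := by
  have hq : 38 ≤ q := F.hq
  have hq0 : (0 : ℝ) < (q : ℝ) := by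
    have : 0 < q := by omega
    exact_mod_cast this
  have hτ0 : (0 : ℝ) < (τ : ℝ) := by exact_mod_cast (by omega : 0 < τ)
  have hk0 : (0 : ℝ) < (k : ℝ) := by exact_mod_cast (by omega : 0 < k)
  obtain ⟨hg1, hgr, -, hlev⟩ := hg i hi hij
  have hg1' : (1 : ℝ) ≤ (g i : ℝ) := by exact_mod_cast hg1
  have hl := hlev hgi k hk hkj
  set G : ℝ := (r : ℝ) * f q k -
          (((ball A (i + k) S).card : ℝ) - ((ball A i S).card : ℝ)) with hG
  have hGe : G = (r : ℝ) * ((6 + 10 * (i : ℝ) * (k : ℝ) / (q : ℝ)) / (q : ℝ)) +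
      ss A q r S i - ss A q r S (i + k) := by
    rw [← f_add (by omega : 1 ≤ q) hi hk, hG, ss, ss]
    ring
  have hX : 6 * (r : ℝ) / (q : ℝ) + b * (k : ℝ) + ss A q r S i - ss A q r S (i + k) ≤ G := by
    rw [hGe]
    have h1 : b * (k : ℝ) ≤ 10 * (r : ℝ) * (i : ℝ) / (q : ℝ) ^ 2 * (k : ℝ) :=
      mul_le_mul_of_nonneg_right hb hk0.le
    have h2 : (r : ℝ) * ((6 + 10 * (i : ℝ) * (k : ℝ) / (q : ℝ)) / (q : ℝ)) =
        6 * (r : ℝ) / (q : ℝ) + 10 * (r : ℝ) * (i : ℝ) / (q : ℝ) ^ 2 * (k : ℝ) := by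
      field_simp
    rw [h2]
    linarith
  refine hX.trans ?_
  rcases le_or_gt G 0 with h0 | h0
  · refine h0.trans ?_
    apply div_nonneg (mul_nonneg hk0.le (by linarith)) hτ0.le
  · rw [le_div_iff₀ hτ0]
    have hN : τ ≤ (q / 2 - (j - i)) / k * k := by
      have h1 := Nat.div_add_mod (q / 2 - (j - i)) k
      have h2 := Nat.mod_lt (q / 2 - (j - i)) (by omega : 0 < k)
      have h3 : k * ((q / 2 - (j - i)) / k) = (q / 2 - (j - i)) / k * k := Nat.mul_comm _ _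
      omega
    have hN' : (τ : ℝ) ≤ (((q / 2 - (j - i)) / k : ℕ) : ℝ) * (k : ℝ) := by exact_mod_cast hN
    calc G * (τ : ℝ) ≤ G * ((((q / 2 - (j - i)) / k : ℕ) : ℝ) * (k : ℝ)) :=
          mul_le_mul_of_nonneg_left hN' h0.le
      _ = (k : ℝ) * ((((q / 2 - (j - i)) / k : ℕ) : ℝ) * G) := by ring
      _ ≤ (k : ℝ) * ((g i : ℝ) - 1) := mul_le_mul_of_nonneg_left hl hk0.le

/-- All increments of `f` are at least one half. -/
theorem half_le_incr {q h : ℕ} (hq : 38 ≤ q) (hh : 2 * h ≤ q) :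
    1 / 2 ≤ f q (h + 1) - f q h := by
  have hq1 : (38 : ℝ) ≤ (q : ℝ) := by exact_mod_cast hq
  have hq0 : (0 : ℝ) < (q : ℝ) := by linarith
  rcases Nat.eq_zero_or_pos h with h0 | h0
  · subst h0
    rw [Nat.zero_add, f_one q (by omega), f_zero]
    have h1 : 5 / (q : ℝ) ≤ 1 := by
      rw [div_le_one hq0]; linarith
    have h2 : (7 / 5 + 5 / (q : ℝ)) / (q : ℝ) ≤ 1 / 2 := by
      rw [div_le_iff₀ hq0]
      linarith
    linarith
  · rw [f_succ_sub (by omega) h0]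
    have hh' : 2 * (h : ℝ) ≤ (q : ℝ) := by exact_mod_cast hh
    have h1 : 5 * (2 * (h : ℝ) + 1) / (q : ℝ) ≤ 6 := by
      rw [div_le_iff₀ hq0]
      linarith
    have h2 : (37 / 5 + 5 * (2 * (h : ℝ) + 1) / (q : ℝ)) / (q : ℝ) ≤ 1 / 2 := by
      rw [div_le_iff₀ hq0]
      linarith
    linarith

theorem f_mono {q a b : ℕ} (hq : 38 ≤ q) (hab : a ≤ b) (hb : 2 * b ≤ q) : f q a ≤ f q b := by
  induction b, hab using Nat.le_induction with
  | base => exact le_rfl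
  | succ n hn ih =>
    have h1 := half_le_incr hq (by omega : 2 * n ≤ q)
    have h2 := ih (by omega)
    linarith

theorem incr_le {q i : ℕ} (hq : 38 ≤ q) (hi : 2 ≤ i) :
    f q i - f q (i - 1) ≤ 1 - 37 / 5 / (q : ℝ) := by
  have hq1 : (38 : ℝ) ≤ (q : ℝ) := by exact_mod_cast hq
  have hq0 : (0 : ℝ) < (q : ℝ) := by linarith
  obtain ⟨h, rfl⟩ : ∃ h, i = h + 1 := ⟨i - 1, by omega⟩
  rw [Nat.add_sub_cancel, f_succ_sub (by omega) (by omega)]
  have h1 : 0 ≤ 5 * (2 * (h : ℝ) + 1) / (q : ℝ) := by positivity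
  have h2 : 37 / 5 / (q : ℝ) ≤ (37 / 5 + 5 * (2 * (h : ℝ) + 1) / (q : ℝ)) / (q : ℝ) := by
    rw [div_le_div_iff_of_pos_right hq0]
    linarith
  linarith

theorem final_core (r m : ℕ) (hr : 1 ≤ r) (hm1 : 1 ≤ m) (hm : m ≤ r) (L Sig X T H P fj : ℝ)
    (hP : fj ^ 2 - 2 * Sig = P)
    (h1 : 2 * (L + (r : ℝ) ^ 2 * Sig + (r : ℝ) * X) <
      (m : ℝ) ^ 2 - (m : ℝ) + ((r : ℝ) * fj) ^ 2 - (r : ℝ) * fj)
    (hX : T ≤ 2 * X) (hL : 2 * ((r : ℝ) * ((r : ℝ) - 1) * H) - (r : ℝ) * T ≤ 2 * L)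
    (hn : 1 + P < 2 * H) (hn3 : P ≤ fj) : False := by
  have hr' : (1 : ℝ) ≤ (r : ℝ) := by exact_mod_cast hr
  have hm1' : (1 : ℝ) ≤ (m : ℝ) := by exact_mod_cast hm1
  have hm' : (m : ℝ) ≤ (r : ℝ) := by exact_mod_cast hm
  have e1 : (m : ℝ) ^ 2 - (m : ℝ) ≤ (r : ℝ) ^ 2 - (r : ℝ) := by nlinarith
  have e2 : (r : ℝ) * T ≤ 2 * ((r : ℝ) * X) := by nlinarith
  have e3 : 0 ≤ (r : ℝ) * ((r : ℝ) - 1) * (2 * H - (1 + P)) :=
    mul_nonneg (mul_nonneg (by linarith) (by linarith)) (by linarith)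
  have e4 : 0 ≤ (r : ℝ) * (fj - P) := mul_nonneg (by linarith) (by linarith)
  have e5 : (r : ℝ) ^ 2 * P = (r : ℝ) ^ 2 * fj ^ 2 - 2 * ((r : ℝ) ^ 2 * Sig) := by
    rw [← hP]; ring
  nlinarith

theorem fail_false {q r j : ℕ} {S : Finset V} (F : Fail A q r j S) : False := by
  obtain ⟨g, hg⟩ := exists_level F
  have hpair := pair_ineq F g (fun i h1 h2 => ⟨(hg i h1 h2).1, (hg i h1 h2).2.1, (hg i h1 h2).2.2.1⟩)
  have hq : 38 ≤ q := F.hq
  have hj9 : 9 ≤ j := F.hj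
  have hjq : 2 * j + 1 ≤ q := F.hjq
  have hq1 : (38 : ℝ) ≤ (q : ℝ) := by exact_mod_cast hq
  have hq0 : (0 : ℝ) < (q : ℝ) := by linarith
  have hr : (1 : ℝ) ≤ (r : ℝ) := by exact_mod_cast F.hr
  have hr0 : (0 : ℝ) < (r : ℝ) := by linarith
  set w : ℕ → ℝ := fun i => ((ball A i S).card : ℝ) with hw
  set s : ℕ → ℝ := ss A q r S with hs
  have hsn : ∀ i, i < j → 0 ≤ s i := fun i hi => F.ss_nonneg hi
  have hsj : s j ≤ 0 := F.ss_last
  have hs0 : s 0 = 0 := ss_zero q r S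
  have hws : ∀ i, w i = s i + (S.card : ℝ) + (r : ℝ) * f q i := by
    intro i
    simp only [hw, hs, ss]
    ring
  have hwmono : ∀ i, w (i - 1) ≤ w i := by
    intro i
    simp only [hw]
    exact_mod_cast Finset.card_le_card (ball_subset_ball_of_le (Nat.sub_le i 1) S)
  -- the two parts of the sum
  set L : ℝ := ∑ i ∈ Finset.Ico 1 j, (w i - w (i - 1)) * ((g i : ℝ) - 1) with hL
  set Sig : ℝ := ∑ i ∈ Finset.Ico 1 j, (f q i - f q (i - 1)) * f q (j - i) with hSig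
  set X : ℝ := ∑ i ∈ Finset.Ico 1 j, (s i - s (i - 1)) * f q (j - i) with hXd
  set T : ℝ := ∑ i ∈ Finset.Ico 1 j, s i with hT
  have hsplit : ∑ i ∈ Finset.Ico 1 j,
        (((ball A i S).card : ℝ) - ((ball A (i - 1) S).card : ℝ)) *
          ((g i : ℝ) - 1 + (r : ℝ) * f q (j - i)) = L + (r : ℝ) ^ 2 * Sig + (r : ℝ) * X := by
    rw [hL, hSig, hXd, Finset.mul_sum, Finset.mul_sum, ← Finset.sum_add_distrib,
      ← Finset.sum_add_distrib]
    apply Finset.sum_congr rfl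
    intro i _
    have e1 : ((ball A i S).card : ℝ) = w i := rfl
    have e2 : ((ball A (i - 1) S).card : ℝ) = w (i - 1) := rfl
    rw [e1, e2]
    have e3 : (w i - w (i - 1)) * ((r : ℝ) * f q (j - i)) =
        (r : ℝ) ^ 2 * ((f q i - f q (i - 1)) * f q (j - i)) +
          (r : ℝ) * ((s i - s (i - 1)) * f q (j - i)) := by
      rw [hws i, hws (i - 1)]; ring
    rw [mul_add, e3]
    ring
  rw [hsplit] at hpair
  have hX : T ≤ 2 * X := by
    rw [hXd, abel j (by omega) s (f q) hs0 (f_zero q), hT, Finset.mul_sum]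
    apply Finset.sum_le_sum
    intro i hi
    rw [Finset.mem_Ico] at hi
    have h1 := half_le_incr hq (by omega : 2 * (j - i - 1) ≤ q)
    rw [(by omega : j - i - 1 + 1 = j - i)] at h1
    have h2 := hsn i hi.2
    nlinarith
  have hterm : ∀ i, 1 ≤ i → i < j → 0 ≤ (w i - w (i - 1)) * ((g i : ℝ) - 1) := by
    intro i h1 h2
    have h3 : (1 : ℝ) ≤ (g i : ℝ) := by exact_mod_cast (hg i h1 h2).1
    exact mul_nonneg (by linarith [hwmono i]) (by linarith)
  -- constants for `layer`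
  have hu0 : (0 : ℝ) ≤ (r : ℝ) - 37 / 5 * (r : ℝ) / (q : ℝ) := by
    have : 37 / 5 * (r : ℝ) / (q : ℝ) ≤ (r : ℝ) := by
      rw [div_le_iff₀ hq0]; nlinarith
    linarith
  have hα0 : (0 : ℝ) < 6 * (r : ℝ) / (q : ℝ) := by positivity
  have huα : ((r : ℝ) - 37 / 5 * (r : ℝ) / (q : ℝ)) / (6 * (r : ℝ) / (q : ℝ)) + 1 =
      ((q : ℝ) - 7 / 5) / 6 := by
    field_simp
    ring
  have hincr2 : ∀ i, 2 ≤ i → w i - w (i - 1) ≤
      ((r : ℝ) - 37 / 5 * (r : ℝ) / (q : ℝ)) + (s i - s (i - 1)) := by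
    intro i hi
    have h1 := incr_le hq hi
    have h2 : (r : ℝ) * (f q i - f q (i - 1)) ≤ (r : ℝ) * (1 - 37 / 5 / (q : ℝ)) :=
      mul_le_mul_of_nonneg_left h1 hr0.le
    have h3 : (r : ℝ) * (1 - 37 / 5 / (q : ℝ)) = (r : ℝ) - 37 / 5 * (r : ℝ) / (q : ℝ) := by
      field_simp
    rw [hws i, hws (i - 1)]
    linarith
  have hPsi := psi_closed (q := q) (j := j) (by omega) (by omega)
  have hn3 := num_three hq hj9 hjq
  have hjr : ((j - 1 : ℕ) : ℝ) = (j : ℝ) - 1 := by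
    rw [Nat.cast_sub (by omega)]; simp
  rcases le_or_gt j (q / 7 + 1) with hcase | hcase
  · -- short case
    set τ : ℕ := q / 2 + 3 - 2 * j with hτ
    have hτ1 : 1 ≤ τ := by omega
    have hτ0 : (0 : ℝ) < (τ : ℝ) := by exact_mod_cast (by omega : 0 < τ)
    have hlay := layer 1 j r le_rfl (by omega) F.hr w s g
      ((r : ℝ) - 37 / 5 * (r : ℝ) / (q : ℝ)) (6 * (r : ℝ) / (q : ℝ)) (τ : ℝ) 0
      (6 * (r : ℝ) / (q : ℝ)) hu0 hα0 hτ0 le_rfl hα0.le (fun i _ _ => hwmono i)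
      (by
        intro i h1 h2
        rcases Nat.eq_or_lt_of_le h1 with h3 | h3
        · subst h3
          rw [if_pos rfl, hws 1, Nat.sub_self, hws 0, hs0, f_zero, f_one q (by omega)]
          have h5 : (0 : ℝ) ≤ 5 * (r : ℝ) / (q : ℝ) ^ 2 := by positivity
          have h6 : (r : ℝ) * (1 - (7 / 5 + 5 / (q : ℝ)) / (q : ℝ)) =
              (r : ℝ) - 7 / 5 * (r : ℝ) / (q : ℝ) - 5 * (r : ℝ) / (q : ℝ) ^ 2 := by
            field_simp
            ring
          have h7 : 37 / 5 * (r : ℝ) / (q : ℝ) =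
              7 / 5 * (r : ℝ) / (q : ℝ) + 6 * (r : ℝ) / (q : ℝ) := by ring
          linarith
        · rw [if_neg (by omega)]
          have := hincr2 i h3
          linarith)
      (fun i _ h2 => hsn i h2) hsj
      (fun i h1 h2 => ⟨(hg i h1 h2).1, (hg i h1 h2).2.1⟩)
      (by
        intro i h1 h2 h3 k hk hkj
        exact look F g hg h1 h2 hk hkj hτ1 (by omega) (by positivity) h3)
    have hnum := num_one hq hj9 hjq hcase
    rw [← hτ] at hnum
    refine final_core r S.card F.hr (Finset.card_pos.2 F.hS) F.hSr L Sig X T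
      (f q (j - 1) - 6 / (q : ℝ) - ((j : ℝ) - 1) * ((q : ℝ) - 7 / 5) / (12 * (τ : ℝ)))
      (gg q j / (75 * (q : ℝ) ^ 4)) (f q j) hPsi hpair hX ?_ hnum hn3
    have hTn : 0 ≤ (r : ℝ) * T := by
      apply mul_nonneg hr0.le
      apply Finset.sum_nonneg
      intro i hi
      exact hsn i (Finset.mem_Ico.1 hi).2
    have hlay2 : (r : ℝ) * ((r : ℝ) - 1) * (f q (j - 1) - 6 / (q : ℝ) -
        ((j : ℝ) - 1) * ((q : ℝ) - 7 / 5) / (12 * (τ : ℝ))) ≤ L := by
      refine le_trans ?_ hlay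
      rw [huα, Nat.sub_self, hws (j - 1), hws 0, hs0, f_zero]
      have h1 := hsn (j - 1) (by omega)
      have e1 : ((r : ℝ) - 1) * (s (j - 1) + (S.card : ℝ) + (r : ℝ) * f q (j - 1) -
          (0 + (S.card : ℝ) + (r : ℝ) * 0) - 6 * (r : ℝ) / (q : ℝ)) -
          ((j : ℝ) - ((1 : ℕ) : ℝ)) * (((q : ℝ) - 7 / 5) / 6) *
            (((r : ℝ) - 1) / (r : ℝ) * (((r : ℝ) - 0 * (τ : ℝ)) ^ 2 / (2 * (τ : ℝ)))) =
          (r : ℝ) * ((r : ℝ) - 1) * (f q (j - 1) - 6 / (q : ℝ) -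
            ((j : ℝ) - 1) * ((q : ℝ) - 7 / 5) / (12 * (τ : ℝ))) + ((r : ℝ) - 1) * s (j - 1) := by
        push_cast
        field_simp
        ring
      rw [e1]
      have h2 : 0 ≤ ((r : ℝ) - 1) * s (j - 1) := mul_nonneg (by linarith) h1
      linarith
    linarith
  · -- long case
    set K : ℕ := q / 7 with hK
    have hK5 : 5 ≤ K := by omega
    have hjK : K + 2 ≤ j := by omega
    set τ : ℕ := q / 2 + 1 - 2 * K with hτ
    have hτ1 : 1 ≤ τ := by omega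
    have hτ0 : (0 : ℝ) < (τ : ℝ) := by exact_mod_cast (by omega : 0 < τ)
    -- choice of `a`
    obtain ⟨a, ha1, ha2, ha3⟩ : ∃ a, j - K ≤ a ∧ a ≤ j - K + 1 ∧ 2 * s (a - 1) ≤ T := by
      have hsum : s (j - K - 1) + s (j - K) ≤ T := by
        have hsub : ({j - K - 1, j - K} : Finset ℕ) ⊆ Finset.Ico 1 j := by
          intro x hx
          rw [Finset.mem_insert, Finset.mem_singleton] at hx
          rw [Finset.mem_Ico]
          omega
        have h1 := Finset.sum_le_sum_of_subset_of_nonneg (f := s) hsub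
          (fun i hi _ => hsn i (Finset.mem_Ico.1 hi).2)
        rw [Finset.sum_pair (by omega)] at h1
        exact h1
      rcases le_total (s (j - K - 1)) (s (j - K)) with h | h
      · exact ⟨j - K, le_rfl, by omega, by linarith⟩
      · refine ⟨j - K + 1, by omega, le_rfl, ?_⟩
        rw [Nat.add_sub_cancel]
        linarith
    set b : ℝ := 10 * (r : ℝ) * ((j - K : ℕ) : ℝ) / (q : ℝ) ^ 2 with hb
    have hb0 : 0 ≤ b := by positivity
    have hlay := layer a j r (by omega) (by omega) F.hr w s g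
      ((r : ℝ) - 37 / 5 * (r : ℝ) / (q : ℝ)) (6 * (r : ℝ) / (q : ℝ)) (τ : ℝ) b
      0 hu0 hα0 hτ0 hb0 le_rfl (fun i _ _ => hwmono i)
      (by
        intro i h1 h2
        have := hincr2 i (by omega)
        split_ifs <;> linarith)
      (fun i _ h2 => hsn i h2) hsj
      (fun i h1 h2 => ⟨(hg i (by omega) h2).1, (hg i (by omega) h2).2.1⟩)
      (by
        intro i h1 h2 h3 k hk hkj
        refine look F g hg (by omega) h2 hk hkj hτ1 (by omega) ?_ h3
        rw [hb]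
        have hji : ((j - K : ℕ) : ℝ) ≤ (i : ℝ) := by exact_mod_cast (by omega : j - K ≤ i)
        gcongr)
    have hnum := num_two hq hj9 hjq (by omega)
    rw [← hK, ← hτ] at hnum
    refine final_core r S.card F.hr (Finset.card_pos.2 F.hS) F.hSr L Sig X T
      (f q (j - 1) - f q (j - K) -
        (K : ℝ) * ((q : ℝ) - 7 / 5) / (12 * (τ : ℝ)) *
          (1 - 10 * ((j - K : ℕ) : ℝ) * (τ : ℝ) / (q : ℝ) ^ 2) ^ 2)
      (gg q j / (75 * (q : ℝ) ^ 4)) (f q j) hPsi hpair hX ?_ hnum hn3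
    -- the part of the sum below `a` is nonnegative
    have hLa : ∑ i ∈ Finset.Ico a j, (w i - w (i - 1)) * ((g i : ℝ) - 1) ≤ L := by
      rw [hL]
      apply Finset.sum_le_sum_of_subset_of_nonneg
      · intro x hx
        rw [Finset.mem_Ico] at hx ⊢
        omega
      · intro i hi _
        rw [Finset.mem_Ico] at hi
        exact hterm i hi.1 hi.2
    have hfa : f q (a - 1) ≤ f q (j - K) := f_mono hq (by omega) (by omega)
    have hja : (j : ℝ) - (a : ℝ) ≤ (K : ℝ) := by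
      have : j ≤ a + K := by omega
      have h' : (j : ℝ) ≤ (a : ℝ) + (K : ℝ) := by exact_mod_cast this
      linarith
    rw [huα] at hlay
    set E : ℝ := ((r : ℝ) - 1) / (r : ℝ) * (((r : ℝ) - b * (τ : ℝ)) ^ 2 / (2 * (τ : ℝ))) with hE
    have hE0 : 0 ≤ E := by
      rw [hE]
      apply mul_nonneg (div_nonneg (by linarith) hr0.le)
      positivity
    have hEe : E = (r : ℝ) * ((r : ℝ) - 1) / (2 * (τ : ℝ)) *
        (1 - 10 * ((j - K : ℕ) : ℝ) * (τ : ℝ) / (q : ℝ) ^ 2) ^ 2 := by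
      rw [hE, hb]
      field_simp
    have h1 : ((j : ℝ) - (a : ℝ)) * (((q : ℝ) - 7 / 5) / 6) * E ≤
        (K : ℝ) * (((q : ℝ) - 7 / 5) / 6) * E := by
      apply mul_le_mul_of_nonneg_right _ hE0
      apply mul_le_mul_of_nonneg_right hja
      linarith
    have h2 : ((r : ℝ) - 1) * ((r : ℝ) * (f q (j - 1) - f q (j - K)) - s (a - 1)) ≤
        ((r : ℝ) - 1) * (w (j - 1) - w (a - 1) - 0) := by
      apply mul_le_mul_of_nonneg_left _ (by linarith)
      rw [hws (j - 1), hws (a - 1)]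
      have h3 := hsn (j - 1) (by omega)
      have h4 : (r : ℝ) * f q (a - 1) ≤ (r : ℝ) * f q (j - K) :=
        mul_le_mul_of_nonneg_left hfa hr0.le
      linarith
    have h5 : (r : ℝ) * ((r : ℝ) - 1) * (f q (j - 1) - f q (j - K) -
        (K : ℝ) * ((q : ℝ) - 7 / 5) / (12 * (τ : ℝ)) *
          (1 - 10 * ((j - K : ℕ) : ℝ) * (τ : ℝ) / (q : ℝ) ^ 2) ^ 2) =
        ((r : ℝ) - 1) * ((r : ℝ) * (f q (j - 1) - f q (j - K)) - s (a - 1)) -
          (K : ℝ) * (((q : ℝ) - 7 / 5) / 6) * E + ((r : ℝ) - 1) * s (a - 1) := by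
      rw [hEe]
      field_simp
      ring
    have h6 : 2 * (((r : ℝ) - 1) * s (a - 1)) ≤ (r : ℝ) * T := by
      have h7 := hsn (a - 1) (by omega)
      have h8 : 0 ≤ T := by linarith
      nlinarith
    rw [h5]
    linarith

end

end Pool.Agent.Helper32.AC
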