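import Pool.Agent.Helper32.AC.Small
import Pool.Agent.Helper32.AC.Contra

/-!
Project AC: the growth claim `P(j)` for all `1 ≤ j`, `2 j + 1 ≤ q`.
-/

set_option autoImplicit false

namespace Pool.Agent.Helper32.AC

open Classical
open Pool.Agent.Helper24.CH

variable {V : Type} [Fintype V] {A : V → V → Prop}

theorem grow_all {q r : ℕ} (hq : 38 ≤ q) (hr : 1 ≤ r)
    (hout : ∀ v, r ≤ (Finset.univ.filter (fun y => A v y)).card) (hlow : Low A q)
    (hg : NoShort A (q + 1)) (hn : 9 * (r : ℝ) + 1 ≤ (Fintype.card V : ℝ)) :
    ∀ j, 1 ≤ j → 2 * j + 1 ≤ q → Grow A q r j := by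
  intro j
  induction j using Nat.strong_induction_on with
  | _ j ih =>
    intro h1 h2
    rcases le_or_gt j 8 with h8 | h8
    · exact grow_small hq hr hout hlow hn h1 h8
    · have key : ∀ n : ℕ, ∀ S : Finset V, S.card = n → S.Nonempty → S.card ≤ r →
          (S.card : ℝ) + (r : ℝ) * f q j ≤ ((ball A j S).card : ℝ) := by
        intro n
        induction n using Nat.strong_induction_on with
        | _ n ihn =>
          intro S hSn hS hSr
          by_contra hcon
          have hcon' := not_le.1 hcon
          refine fail_false (A := A) (q := q) (r := r) (j := j) (S := S)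
            ⟨hq, hr, hg, by omega, h2, hS, hSr, ?_, ?_, hcon'⟩
          · intro k hk hkj
            exact ih k hkj hk (by omega)
          · intro T hT hTS
            exact ihn T.card (by omega) T rfl hT (by omega)
      intro S hS hSr
      exact key S.card S rfl hS hSr

end Pool.Agent.Helper32.AC
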