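import Pool.Agent.Helper32.AC.Defs

/-!
Project AC, module Closed: reduction to strongly connected digraphs; balls of one vertex are proper.

Proof of `bound_or_strong`. If the second alternative fails there is a nonempty closed `H ≠ univ`.
`hlow H` gives `x ∈ H` with `|nbr A {x} ∩ H| (q-10) + 1 ≤ |H|`; `nbr A {x} ⊆ H` (closed), so
`r ≤ |nbr A {x} ∩ H|`, and `|H| ≤ card V`.

Proof of `ball_ne_univ`. There is `z` with `A z v`: otherwise `univ \ {v}` is closed, and it is nonempty
(`v` has an out-neighbour `y` by `hout`, and `y ≠ v` because `A v v` contradicts `hg` with `i = 0`), so it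
would be `univ`. If `ball A t {v} = univ` then `z ∈ ball A t {v}`, contradiction to `hg z v _ t`
(`t + 1 < q + 1`).
-/

set_option autoImplicit false

namespace Pool.Agent.Helper32.AC

open Classical
open Pool.Agent.Helper24.CH

variable {V : Type} [Fintype V] {A : V → V → Prop}

theorem bound_or_strong {q r : ℕ} (hq : 11 ≤ q)
    (hout : ∀ v, r ≤ (Finset.univ.filter (fun y => A v y)).card) (hlow : Low A q) :
    (r : ℝ) * ((q : ℝ) - 10) + 1 ≤ (Fintype.card V : ℝ) ∨
      (∀ H : Finset V, H.Nonempty → (∀ x ∈ H, ∀ y, A x y → y ∈ H) → H = Finset.univ) := by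
  by_cases h : ∀ H : Finset V, H.Nonempty → (∀ x ∈ H, ∀ y, A x y → y ∈ H) → H = Finset.univ
  · exact Or.inr h
  · left
    push Not at h
    obtain ⟨H, hne, hcl, hH⟩ := h
    obtain ⟨x, hx, hb⟩ := hlow H hne hH
    have h1 : nbr A {x} ∩ H = Finset.univ.filter (fun y => A x y) := by
      ext y
      rw [Finset.mem_inter, mem_nbr, Finset.mem_filter]
      constructor
      · rintro ⟨⟨z, hz, hzy⟩, -⟩
        rw [Finset.mem_singleton] at hz
        subst hz
        exact ⟨Finset.mem_univ _, hzy⟩
      · rintro ⟨-, hxy⟩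
        exact ⟨⟨x, Finset.mem_singleton_self x, hxy⟩, hcl x hx y hxy⟩
    have h2 : (r : ℝ) ≤ ((nbr A {x} ∩ H).card : ℝ) := by
      rw [h1]
      exact_mod_cast hout x
    have h3 : (0 : ℝ) ≤ (q : ℝ) - 10 := by
      have : (11 : ℝ) ≤ (q : ℝ) := by exact_mod_cast hq
      linarith
    have h4 : (H.card : ℝ) ≤ (Fintype.card V : ℝ) := by
      exact_mod_cast Finset.card_le_univ H
    have h5 := mul_le_mul_of_nonneg_right h2 h3
    linarith

theorem ball_ne_univ {q r : ℕ} (hq : 1 ≤ q) (hr : 1 ≤ r)
    (hout : ∀ v, r ≤ (Finset.univ.filter (fun y => A v y)).card) (hg : NoShort A (q + 1))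
    (hstrong : ∀ H : Finset V, H.Nonempty → (∀ x ∈ H, ∀ y, A x y → y ∈ H) → H = Finset.univ)
    {t : ℕ} (ht : t < q) (v : V) : ball A t {v} ≠ Finset.univ := by
  intro hb
  have hz : ∃ z, A z v := by
    by_contra hno
    push Not at hno
    obtain ⟨y, hy⟩ : (Finset.univ.filter (fun y => A v y)).Nonempty := by
      rw [← Finset.card_pos]
      exact lt_of_lt_of_le (by omega) (hout v)
    have hvy : A v y := (Finset.mem_filter.1 hy).2
    have hyv : y ≠ v := by
      rintro rfl
      exact hno y hvy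
    have h1 := hstrong (Finset.univ.erase v)
      ⟨y, Finset.mem_erase.2 ⟨hyv, Finset.mem_univ _⟩⟩
      (fun x _ w hxw => Finset.mem_erase.2
        ⟨by rintro rfl; exact hno x hxw, Finset.mem_univ _⟩)
    have h2 : v ∈ Finset.univ.erase v := by
      rw [h1]
      exact Finset.mem_univ v
    exact (Finset.mem_erase.1 h2).1 rfl
  obtain ⟨z, hz⟩ := hz
  have h3 : z ∈ ball A t {v} := by
    rw [hb]
    exact Finset.mem_univ z
  exact hg z v hz t (by omega) h3

end Pool.Agent.Helper32.AC
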