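import Pool.Agent.Helper32.AC.Defs

/-!
Project AC, module Growth: one step of growth of a proper subset.

Proof. `Low` gives `x ∈ X` with `d (q-10) + 1 ≤ |X|`, `d = |nbr A {x} ∩ X|`.
`ball A 1 X = X ∪ nbr A X ⊇ X ∪ (nbr A {x} \ X)` (disjoint), `|nbr A {x}| ≥ r` (`nbr A {x}` is the
filter in `hout`), so `|ball A 1 X| ≥ |X| + r - d`, and `d ≤ (|X|-1)/(q-10)` (`le_div_iff₀`).
-/

set_option autoImplicit false

namespace Pool.Agent.Helper32.AC

open Classical
open Pool.Agent.Helper24.CH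

variable {V : Type} [Fintype V] {A : V → V → Prop}

theorem grow_one {q r : ℕ} (hq : 11 ≤ q)
    (hout : ∀ v, r ≤ (Finset.univ.filter (fun y => A v y)).card) (hlow : Low A q)
    {X : Finset V} (hX : X.Nonempty) (hX' : X ≠ Finset.univ) :
    (X.card : ℝ) + (r : ℝ) - ((X.card : ℝ) - 1) / ((q : ℝ) - 10) ≤ ((ball A 1 X).card : ℝ) := by
  obtain ⟨x, hx, hlx⟩ := hlow X hX hX'
  have hq0 : (0 : ℝ) < (q : ℝ) - 10 := by
    have : (11 : ℝ) ≤ (q : ℝ) := by exact_mod_cast hq
    linarith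
  have hd : ((nbr A {x} ∩ X).card : ℝ) ≤ ((X.card : ℝ) - 1) / ((q : ℝ) - 10) := by
    rw [le_div_iff₀ hq0]
    linarith
  have hnbr : nbr A {x} = Finset.univ.filter (fun y => A x y) := by
    ext y
    rw [mem_nbr, Finset.mem_filter]
    constructor
    · rintro ⟨z, hz, hzy⟩
      rw [Finset.mem_singleton.1 hz] at hzy
      exact ⟨Finset.mem_univ _, hzy⟩
    · rintro ⟨_, hy⟩
      exact ⟨x, Finset.mem_singleton_self x, hy⟩
  have hr : r ≤ (nbr A {x}).card := by
    rw [hnbr]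
    exact hout x
  have hsub : X ∪ (nbr A {x} \ X) ⊆ ball A 1 X := by
    intro y hy
    rw [show (1 : ℕ) = 0 + 1 from rfl, mem_ball_succ, ball_zero]
    rcases Finset.mem_union.1 hy with hy | hy
    · exact Or.inl hy
    · obtain ⟨z, hz, hzy⟩ := mem_nbr.1 (Finset.mem_sdiff.1 hy).1
      rw [Finset.mem_singleton.1 hz] at hzy
      exact Or.inr ⟨x, hx, hzy⟩
  have hcard : X.card + (nbr A {x} \ X).card ≤ (ball A 1 X).card := by
    rw [← Finset.card_union_of_disjoint Finset.disjoint_sdiff]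
    exact Finset.card_le_card hsub
  have hsplit : (nbr A {x} ∩ X).card + (nbr A {x} \ X).card = (nbr A {x}).card :=
    Finset.card_inter_add_card_sdiff _ _
  have h1 : X.card + r ≤ (ball A 1 X).card + (nbr A {x} ∩ X).card := by omega
  have h2 : (X.card : ℝ) + (r : ℝ) ≤ ((ball A 1 X).card : ℝ) + ((nbr A {x} ∩ X).card : ℝ) := by
    exact_mod_cast h1
  linarith

end Pool.Agent.Helper32.AC
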