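import Pool.Agent.Helper32.AC.Naive
import Pool.Agent.Helper32.AC.Claim
import Pool.Agent.Helper24.CH.Equiv

/-!
Project AC: the induction on the number of vertices.
-/

set_option autoImplicit false

namespace Pool.Agent.Helper32.AC

open Classical
open Pool.Agent.Helper24.CH

/-- The ball of radius `j + 1` around one vertex. -/
theorem ball_single {V : Type} [Fintype V] {A : V → V → Prop} {q r j : ℕ} (hr : 1 ≤ r)
    (hout : ∀ v, r ≤ (Finset.univ.filter (fun y => A v y)).card)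
    (hg : NoShort A (q + 1)) (hj : 2 * j + 1 ≤ q) (hP : Grow A q r j) (v : V) :
    1 + (r : ℝ) + (r : ℝ) * f q j ≤ ((ball A (j + 1) {v}).card : ℝ) := by
  obtain ⟨S, hSsub, hScard⟩ := Finset.exists_subset_card_eq (hout v)
  have hSne : S.Nonempty := by
    rw [← Finset.card_pos]; omega
  have hPS := hP S hSne hScard.le
  have hv : v ∉ ball A j S := by
    intro hv
    obtain ⟨s, hs, hvs⟩ := mem_ball_iff.1 hv
    exact hg v s (Finset.mem_filter.1 (hSsub hs)).2 j (by omega) hvs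
  have hsub : insert v (ball A j S) ⊆ ball A (j + 1) {v} := by
    intro y hy
    rcases Finset.mem_insert.1 hy with h | h
    · rw [h]
      exact subset_ball _ _ (Finset.mem_singleton_self v)
    · obtain ⟨s, hs, hys⟩ := mem_ball_iff.1 h
      exact mem_ball_succ_left.2 (Or.inr ⟨s, (Finset.mem_filter.1 (hSsub hs)).2, hys⟩)
  have hcard := Finset.card_le_card hsub
  rw [Finset.card_insert_of_notMem hv] at hcard
  have hcard' : ((ball A j S).card : ℝ) + 1 ≤ ((ball A (j + 1) {v}).card : ℝ) := by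
    exact_mod_cast hcard
  rw [hScard] at hPS
  linarith

theorem two_f {q : ℕ} (hq : 38 ≤ q) :
    (q : ℝ) - 10 ≤ 2 + f q (q / 2 - 1) + f q (q - q / 2 - 1) := by
  have hq1 : (38 : ℝ) ≤ (q : ℝ) := by exact_mod_cast hq
  have hq0 : (0 : ℝ) < (q : ℝ) := by linarith
  rw [f_pos_eq q (by omega : 1 ≤ q / 2 - 1), f_pos_eq q (by omega : 1 ≤ q - q / 2 - 1)]
  set h1 : ℝ := ((q / 2 - 1 : ℕ) : ℝ) with hh1
  set h2 : ℝ := ((q - q / 2 - 1 : ℕ) : ℝ) with hh2
  have hsum : h1 + h2 = (q : ℝ) - 2 := by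
    have : (q / 2 - 1) + (q - q / 2 - 1) + 2 = q := by omega
    have h' : (((q / 2 - 1) + (q - q / 2 - 1) + 2 : ℕ) : ℝ) = (q : ℝ) := by exact_mod_cast this
    rw [Nat.cast_add, Nat.cast_add] at h'
    rw [hh1, hh2]
    push_cast at h' ⊢
    linarith
  have hd1 : h1 ≤ h2 := by
    rw [hh1, hh2]
    exact_mod_cast (by omega : q / 2 - 1 ≤ q - q / 2 - 1)
  have hd2 : h2 ≤ h1 + 1 := by
    rw [hh1, hh2]
    exact_mod_cast (by omega : q - q / 2 - 1 ≤ q / 2 - 1 + 1)
  have hsq : h1 ^ 2 + h2 ^ 2 ≤ (q : ℝ) ^ 2 / 2 - 2 * (q : ℝ) + 5 / 2 := by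
    have e : h1 ^ 2 + h2 ^ 2 = ((h1 + h2) ^ 2 + (h2 - h1) ^ 2) / 2 := by ring
    rw [e, hsum]
    have : (h2 - h1) ^ 2 ≤ 1 := by nlinarith
    nlinarith
  have e1 : 2 + (h1 - (37 / 5 * h1 + 5 * h1 ^ 2 / (q : ℝ) - 6) / (q : ℝ)) +
      (h2 - (37 / 5 * h2 + 5 * h2 ^ 2 / (q : ℝ) - 6) / (q : ℝ)) =
      2 + (h1 + h2) - (37 / 5 * (h1 + h2) - 12) / (q : ℝ) -
        5 * (h1 ^ 2 + h2 ^ 2) / (q : ℝ) ^ 2 := by
    field_simp
    ring
  rw [e1, hsum]
  have e2 : 5 * (h1 ^ 2 + h2 ^ 2) / (q : ℝ) ^ 2 ≤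
      5 * ((q : ℝ) ^ 2 / 2 - 2 * (q : ℝ) + 5 / 2) / (q : ℝ) ^ 2 := by
    gcongr
  have e3 : 5 * ((q : ℝ) ^ 2 / 2 - 2 * (q : ℝ) + 5 / 2) / (q : ℝ) ^ 2 ≤ 5 / 2 := by
    rw [div_le_iff₀ (by positivity)]
    nlinarith
  have e4 : (37 / 5 * ((q : ℝ) - 2) - 12) / (q : ℝ) ≤ 37 / 5 := by
    rw [div_le_iff₀ hq0]
    linarith
  linarith

theorem bound_large {V : Type} [Fintype V] [Nonempty V] {A : V → V → Prop} {q r : ℕ}
    (hq : 38 ≤ q) (hr : 1 ≤ r)
    (hout : ∀ v, r ≤ (Finset.univ.filter (fun y => A v y)).card) (hlow : Low A q)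
    (hg : NoShort A (q + 1)) :
    (r : ℝ) * ((q : ℝ) - 10) + 1 ≤ (Fintype.card V : ℝ) := by
  rcases bound_or_strong (by omega) hout hlow with h | hstrong
  · exact h
  have hn := nine hq hr hout hlow hg hstrong
  have hP := grow_all hq hr hout hlow hg hn
  have hb1 : ∀ v : V, 1 + (r : ℝ) + (r : ℝ) * f q (q / 2 - 1) ≤
      ((ball A (q / 2) {v}).card : ℝ) := by
    intro v
    have := ball_single hr hout hg (by omega) (hP (q / 2 - 1) (by omega) (by omega)) v
    rwa [(by omega : q / 2 - 1 + 1 = q / 2)] at this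
  have hb2 : ∀ v : V, 1 + (r : ℝ) + (r : ℝ) * f q (q - q / 2 - 1) ≤
      ((ball A (q - q / 2) {v}).card : ℝ) := by
    intro v
    have := ball_single hr hout hg (by omega) (hP (q - q / 2 - 1) (by omega) (by omega)) v
    rwa [(by omega : q - q / 2 - 1 + 1 = q - q / 2)] at this
  have hpc := pair_count (A := A) hg (R1 := q / 2) (R2 := q - q / 2) (by omega)
    (Finset.univ : Finset V) (fun _ _ => Finset.subset_univ _) (fun _ _ => Finset.subset_univ _)
  have hpc' : ∑ w : V, ((ball A (q / 2) {w}).card : ℝ) +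
      ∑ w : V, ((ball A (q - q / 2) {w}).card : ℝ) ≤
      (Fintype.card V : ℝ) * ((Fintype.card V : ℝ) + 1) := by
    rw [Finset.card_univ] at hpc
    exact_mod_cast hpc
  have hs1 : (Fintype.card V : ℝ) * (1 + (r : ℝ) + (r : ℝ) * f q (q / 2 - 1)) ≤
      ∑ w : V, ((ball A (q / 2) {w}).card : ℝ) := by
    have := Finset.sum_le_sum (s := (Finset.univ : Finset V)) (fun w _ => hb1 w)
    rwa [Finset.sum_const, Finset.card_univ, nsmul_eq_mul] at this
  have hs2 : (Fintype.card V : ℝ) * (1 + (r : ℝ) + (r : ℝ) * f q (q - q / 2 - 1)) ≤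
      ∑ w : V, ((ball A (q - q / 2) {w}).card : ℝ) := by
    have := Finset.sum_le_sum (s := (Finset.univ : Finset V)) (fun w _ => hb2 w)
    rwa [Finset.sum_const, Finset.card_univ, nsmul_eq_mul] at this
  have hn0 : (0 : ℝ) < (Fintype.card V : ℝ) := by exact_mod_cast Fintype.card_pos
  have hr0 : (0 : ℝ) ≤ (r : ℝ) := by positivity
  have h1 : (Fintype.card V : ℝ) * (2 + 2 * (r : ℝ) + (r : ℝ) * f q (q / 2 - 1) +
      (r : ℝ) * f q (q - q / 2 - 1)) ≤ (Fintype.card V : ℝ) * ((Fintype.card V : ℝ) + 1) := by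
    linarith
  have h2 := le_of_mul_le_mul_left h1 hn0
  have h3 := mul_le_mul_of_nonneg_left (two_f hq) hr0
  linarith

theorem ac_real (q : ℕ) (hq : 11 ≤ q) : ∀ n : ℕ, ∀ (V : Type) (_ : Fintype V) (_ : Nonempty V)
    (A : V → V → Prop) (r : ℕ), Fintype.card V = n →
    (∀ v, r ≤ (Finset.univ.filter (fun y => A v y)).card) → NoShort A (q + 1) →
    (r : ℝ) * ((q : ℝ) - 10) + 1 ≤ (Fintype.card V : ℝ) := by
  intro n
  induction n using Nat.strong_induction_on with
  | _ n ih =>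
    intro V _ _ A r hV hout hg
    have hlow : Low A q := by
      intro X hX hX'
      obtain ⟨x, hx, hmin⟩ := Finset.exists_min_image X (fun x => (nbr A {x} ∩ X).card) hX
      refine ⟨x, hx, ?_⟩
      have hne : Nonempty {v : V // v ∈ X} := ⟨⟨x, hx⟩⟩
      have hcard : Fintype.card {v : V // v ∈ X} = X.card := Fintype.card_coe X
      have hlt : X.card < n := by
        rw [← hV, ← Finset.card_univ]
        exact Finset.card_lt_card (Finset.ssubset_univ_iff.2 hX')
      have hB := ih X.card hlt {v : V // v ∈ X} inferInstance hne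
        (fun a b => A a.1 b.1) (nbr A {x} ∩ X).card hcard ?_ ?_
      · rwa [hcard] at hB
      · intro a
        refine (hmin a.1 a.2).trans (le_of_eq ?_)
        rw [← Finset.card_map (Function.Embedding.subtype (fun v => v ∈ X))]
        congr 1
        ext y
        simp only [Finset.mem_inter, mem_nbr, Finset.mem_singleton, exists_eq_left,
          Finset.mem_map, Finset.mem_filter, Finset.mem_univ, true_and,
          Function.Embedding.subtype_apply]
        constructor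
        · rintro ⟨h1, h2⟩
          exact ⟨⟨y, h2⟩, h1, rfl⟩
        · rintro ⟨b, hb, rfl⟩
          exact ⟨hb, b.2⟩
      · exact noShort_of_hom (f := fun a : {v : V // v ∈ X} => a.1) (fun a b h => h) hg
    rcases Nat.eq_zero_or_pos r with hr | hr
    · subst hr
      have h1 : 1 ≤ Fintype.card V := Fintype.card_pos
      have h2 : (1 : ℝ) ≤ (Fintype.card V : ℝ) := by exact_mod_cast h1
      simpa using h2
    · rcases le_or_gt q 37 with h37 | h37
      · exact bound_small hq h37 hr hout hlow hg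
      · exact bound_large (by omega) hr hout hlow hg

/-- Caccetta-Häggkvist with additive constant 10. -/
theorem ac_main {V : Type} [Fintype V] [Nonempty V] {A : V → V → Prop} {q r : ℕ}
    (hout : ∀ v, r ≤ (Finset.univ.filter (fun y => A v y)).card) (hg : NoShort A (q + 1)) :
    (r : ℤ) * ((q : ℤ) - 10) + 1 ≤ (Fintype.card V : ℤ) := by
  rcases le_or_gt q 10 with h | h
  · have h1 : (1 : ℤ) ≤ (Fintype.card V : ℤ) := by exact_mod_cast Fintype.card_pos
    have h2 : (r : ℤ) * ((q : ℤ) - 10) ≤ 0 :=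
      mul_nonpos_of_nonneg_of_nonpos (by positivity) (by omega)
    linarith
  · have := ac_real q (by omega) (Fintype.card V) V inferInstance inferInstance A r rfl hout hg
    exact_mod_cast this

end Pool.Agent.Helper32.AC
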