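import Pool.Agent.Helper32.AC.Defs

/-!
Project AC, module Level: growth inside one level `W_i = ball A i S` of a minimal failure.

Proof of `level_growth`. Let `Z 0 = {w}`, `Z (l+1) = ball A k (Z l) ∩ W`, `W = ball A i S`. By induction:
`Z l ⊆ W`, `w ∈ Z l`, `Z l ⊆ ball A (l k) {w}` (`ball_add`), so for `l ≤ n` (`n k ≤ T`) `Z l ⊆ ball A T {w} ∩ W`, hence
`|Z l| ≤ c < r`, and `hP k` (`Grow`) applies to `Z l`: `|ball A k (Z l)| ≥ |Z l| + r f(k)`. As
`ball A k (Z l) ⊆ ball A k W = ball A (k+i) S` (`ball_add`), at most `|ball A (i+k) S| - |W|` of its elements are not in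
`W` (`W ⊆ ball A (i+k) S`): `|Z (l+1)| ≥ |Z l| + G`, `G = r f(k) - (|ball A (i+k) S| - |W|)`. So
`c ≥ |Z n| ≥ 1 + n G`.

Proof of `exists_level`. For `1 ≤ i < j` let `c i` be the minimum of `|ball A (q/2-(j-i)) {w} ∩ ball A i S|` over
`w ∈ ball A i S` (nonempty), attained at `w_i`; `c i ≥ 1` (`w` is in both sets); `g i = min r (c i)` (and `g i = 1` for other `i`;
or use `choose` after proving the statement for one `i`). If `g i < r` then `g i = c i < r`; use
`level_growth` with `n = (q/2-(j-i))/k`.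
-/

set_option autoImplicit false

namespace Pool.Agent.Helper32.AC

open Classical
open Pool.Agent.Helper24.CH

variable {V : Type} [Fintype V] {A : V → V → Prop}

theorem level_growth {q r i k T n : ℕ} {S : Finset V} {w : V} (hk : 1 ≤ k)
    (hP : Grow A q r k) (hw : w ∈ ball A i S) (hn : n * k ≤ T)
    (hc : (ball A T {w} ∩ ball A i S).card < r) :
    1 + (n : ℝ) * ((r : ℝ) * f q k - (((ball A (i + k) S).card : ℝ) - ((ball A i S).card : ℝ))) ≤
      ((ball A T {w} ∩ ball A i S).card : ℝ) := by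
  set W := ball A i S with hW
  set G : ℝ := (r : ℝ) * f q k - (((ball A (i + k) S).card : ℝ) - (W.card : ℝ)) with hG
  have hstep : ∀ l, l ≤ n → ∃ Z : Finset V, Z ⊆ W ∧ w ∈ Z ∧ Z ⊆ ball A (l * k) {w} ∧
      1 + (l : ℝ) * G ≤ (Z.card : ℝ) := by
    intro l
    induction l with
    | zero =>
      intro _
      refine ⟨{w}, Finset.singleton_subset_iff.2 hw, Finset.mem_singleton_self w, ?_, by simp⟩
      rw [Nat.zero_mul, ball_zero]
    | succ l ih =>
      intro hl
      obtain ⟨Z, hZW, hwZ, hZb, hZc⟩ := ih (by omega)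
      have hlk : l * k ≤ T := (Nat.mul_le_mul_right k (by omega)).trans hn
      have hZr : Z.card ≤ r := by
        have h1 : Z ⊆ ball A T {w} ∩ W :=
          Finset.subset_inter (hZb.trans (ball_subset_ball_of_le hlk _)) hZW
        exact (Finset.card_le_card h1).trans hc.le
      have hgr := hP Z ⟨w, hwZ⟩ hZr
      refine ⟨ball A k Z ∩ W, Finset.inter_subset_right,
        Finset.mem_inter.2 ⟨subset_ball k Z hwZ, hw⟩, ?_, ?_⟩
      · refine Finset.inter_subset_left.trans ?_
        have h2 : ball A k Z ⊆ ball A k (ball A (l * k) {w}) := ball_mono hZb k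
        rw [← Pool.Agent.Helper24.CH.ball_add] at h2
        rw [Nat.succ_mul, Nat.add_comm]
        exact h2
      · have h3 : ball A k Z ⊆ ball A (i + k) S := by
          have h4 : ball A k Z ⊆ ball A k (ball A i S) := ball_mono hZW k
          rw [← Pool.Agent.Helper24.CH.ball_add, Nat.add_comm] at h4
          exact h4
        have h5 : W ⊆ ball A (i + k) S := ball_subset_ball_of_le (Nat.le_add_right i k) S
        have h6 : (ball A k Z \ W).card ≤ (ball A (i + k) S \ W).card :=
          Finset.card_le_card (Finset.sdiff_subset_sdiff h3 (Finset.Subset.refl _))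
        have h7 : (ball A (i + k) S \ W).card + W.card = (ball A (i + k) S).card :=
          Finset.card_sdiff_add_card_eq_card h5
        have h8 : (ball A k Z ∩ W).card + (ball A k Z \ W).card = (ball A k Z).card :=
          Finset.card_inter_add_card_sdiff _ _
        have h6' : ((ball A k Z \ W).card : ℝ) ≤ ((ball A (i + k) S \ W).card : ℝ) := by exact_mod_cast h6
        have h7' : ((ball A (i + k) S \ W).card : ℝ) + (W.card : ℝ) = ((ball A (i + k) S).card : ℝ) := by
          exact_mod_cast h7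
        have h8' : ((ball A k Z ∩ W).card : ℝ) + ((ball A k Z \ W).card : ℝ) = ((ball A k Z).card : ℝ) := by
          exact_mod_cast h8
        push_cast
        linarith
  obtain ⟨Z, hZW, _, hZb, hZc⟩ := hstep n le_rfl
  have h1 : Z ⊆ ball A T {w} ∩ W :=
    Finset.subset_inter (hZb.trans (ball_subset_ball_of_le hn _)) hZW
  exact hZc.trans (by exact_mod_cast Finset.card_le_card h1)

theorem exists_level {q r j : ℕ} {S : Finset V} (F : Fail A q r j S) :
    ∃ g : ℕ → ℕ, ∀ i, 1 ≤ i → i < j →
      1 ≤ g i ∧ g i ≤ r ∧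
      (∀ w ∈ ball A i S, g i ≤ (ball A (q / 2 - (j - i)) {w} ∩ ball A i S).card) ∧
      (g i < r → ∀ k, 1 ≤ k → i + k ≤ j →
        (((q / 2 - (j - i)) / k : ℕ) : ℝ) * ((r : ℝ) * f q k -
          (((ball A (i + k) S).card : ℝ) - ((ball A i S).card : ℝ))) ≤ (g i : ℝ) - 1) := by
  have key : ∀ i, ∃ g : ℕ, 1 ≤ i → i < j →
      1 ≤ g ∧ g ≤ r ∧
      (∀ w ∈ ball A i S, g ≤ (ball A (q / 2 - (j - i)) {w} ∩ ball A i S).card) ∧
      (g < r → ∀ k, 1 ≤ k → i + k ≤ j →
        (((q / 2 - (j - i)) / k : ℕ) : ℝ) * ((r : ℝ) * f q k -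
          (((ball A (i + k) S).card : ℝ) - ((ball A i S).card : ℝ))) ≤ (g : ℝ) - 1) := by
    intro i
    have hne : (ball A i S).Nonempty := F.hS.mono (subset_ball i S)
    obtain ⟨w0, hw0, hmin⟩ := Finset.exists_min_image (ball A i S)
      (fun w => (ball A (q / 2 - (j - i)) {w} ∩ ball A i S).card) hne
    have hc1 : 1 ≤ (ball A (q / 2 - (j - i)) {w0} ∩ ball A i S).card :=
      Finset.card_pos.2 ⟨w0, Finset.mem_inter.2
        ⟨subset_ball _ _ (Finset.mem_singleton_self w0), hw0⟩⟩
    refine ⟨min r (ball A (q / 2 - (j - i)) {w0} ∩ ball A i S).card, fun hi hij =>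
      ⟨le_min F.hr hc1, min_le_left _ _, fun w hw => (min_le_right _ _).trans (hmin w hw), ?_⟩⟩
    intro hlt k hk hik
    have hlt' : (ball A (q / 2 - (j - i)) {w0} ∩ ball A i S).card < r := by
      rcases min_lt_iff.1 hlt with h | h
      · exact absurd h (lt_irrefl _)
      · exact h
    rw [min_eq_right hlt'.le]
    have h1 := level_growth (n := (q / 2 - (j - i)) / k) hk (F.hP k hk (by omega)) hw0
      (Nat.div_mul_le_self _ _) hlt'
    linarith
  choose g hg using key
  exact ⟨g, hg⟩

end Pool.Agent.Helper32.AC
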