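import Pool.Agent.Helper32.AC.Growth
import Pool.Agent.Helper32.AC.Closed
import Pool.Agent.Helper24.CH.PairCount

/-!
Project AC, module Naive: growth of the balls of one vertex from the one step growth alone.

Proof of `naive_growth`. Induction on `t`: `ball A (t+1) {v} = ball A 1 (ball A t {v})` (`ball_add`),
`grow_one` with `X = ball A t {v}` (`≠ univ` by `ball_ne_univ`): with `y = |X| - 1` and `p = q - 10 ≥ 1`,
`|ball| - 1 ≥ y (1 - 1/p) + r ≥ p r (1-(1-1/p)^t) (1-1/p) + r = p r (1-(1-1/p)^(t+1))`.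

Proof of `bound_small`. `pair_count` with `W = univ`, `R1 = q/2`, `R2 = q - q/2`:
`n (n+1) ≥ n (2 + p r (2 - x^R1 - x^R2))`, `x = 1 - 1/p`, and `x^R1 + x^R2 ≤ 1` for `11 ≤ q ≤ 37`
(`interval_cases q <;> norm_num`); so `n - 1 ≥ p r`.

Proof of `nine`. `p ≥ 28`. By induction as in `naive_growth` but with `1 - 1/28 ≤ 1 - 1/p` (as `y ≥ 0`):
`|ball A t {v}| - 1 ≥ 28 r (1 - (27/28)^t)` for `t ≤ 12 ≤ q`, and `28 (1 - (27/28)^12) ≥ 9`; `|ball| ≤ n`.
-/

set_option autoImplicit false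

namespace Pool.Agent.Helper32.AC

open Classical
open Pool.Agent.Helper24.CH

variable {V : Type} [Fintype V] {A : V → V → Prop}

theorem naive_growth {q r : ℕ} (hq : 11 ≤ q) (hr : 1 ≤ r)
    (hout : ∀ v, r ≤ (Finset.univ.filter (fun y => A v y)).card) (hlow : Low A q)
    (hg : NoShort A (q + 1))
    (hstrong : ∀ H : Finset V, H.Nonempty → (∀ x ∈ H, ∀ y, A x y → y ∈ H) → H = Finset.univ)
    {t : ℕ} (ht : t ≤ q) (v : V) :
    ((q : ℝ) - 10) * (r : ℝ) * (1 - (1 - 1 / ((q : ℝ) - 10)) ^ t) + 1 ≤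
      ((ball A t {v}).card : ℝ) := by
  have hq' : (11 : ℝ) ≤ (q : ℝ) := by exact_mod_cast hq
  have hp : (1 : ℝ) ≤ (q : ℝ) - 10 := by linarith
  have hp0 : (0 : ℝ) < (q : ℝ) - 10 := by linarith
  set p : ℝ := (q : ℝ) - 10 with hpdef
  have hx : (0 : ℝ) ≤ 1 - 1 / p := by
    rw [sub_nonneg, div_le_one hp0]
    exact hp
  induction t with
  | zero =>
    rw [ball_zero, Finset.card_singleton, pow_zero]
    norm_num
  | succ t ih =>
    have ih1 := ih (by omega)
    have hX : (ball A t {v}).Nonempty := ⟨v, subset_ball t _ (Finset.mem_singleton_self v)⟩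
    have hX' : ball A t {v} ≠ Finset.univ :=
      ball_ne_univ (by omega : 1 ≤ q) hr hout hg hstrong (by omega) v
    have hg1 := grow_one hq hout hlow hX hX'
    rw [← ball_add 1 t {v}, Nat.add_comm 1 t, ← hpdef] at hg1
    refine le_trans ?_ hg1
    have e1 : p * (r : ℝ) * (1 - (1 - 1 / p) ^ (t + 1)) =
        p * (r : ℝ) * (1 - (1 - 1 / p) ^ t) * (1 - 1 / p) + (r : ℝ) := by
      have hpp : p * (1 / p) = 1 := mul_one_div_cancel hp0.ne'
      rw [pow_succ]
      linear_combination (r : ℝ) * hpp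
    have e2 : p * (r : ℝ) * (1 - (1 - 1 / p) ^ t) * (1 - 1 / p) ≤
        (((ball A t {v}).card : ℝ) - 1) * (1 - 1 / p) :=
      mul_le_mul_of_nonneg_right (by linarith) hx
    have e3 : (((ball A t {v}).card : ℝ) - 1) * (1 - 1 / p) =
        ((ball A t {v}).card : ℝ) - 1 - (((ball A t {v}).card : ℝ) - 1) / p := by
      rw [mul_sub, mul_one, mul_one_div]
    rw [e1]
    linarith

theorem bound_small [Nonempty V] {q r : ℕ} (hq : 11 ≤ q) (hq' : q ≤ 37) (hr : 1 ≤ r)
    (hout : ∀ v, r ≤ (Finset.univ.filter (fun y => A v y)).card) (hlow : Low A q)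
    (hg : NoShort A (q + 1)) :
    (r : ℝ) * ((q : ℝ) - 10) + 1 ≤ (Fintype.card V : ℝ) := by
  rcases bound_or_strong hq hout hlow with h | hstrong
  · exact h
  · have hq1 : (11 : ℝ) ≤ (q : ℝ) := by exact_mod_cast hq
    have hp : (1 : ℝ) ≤ (q : ℝ) - 10 := by linarith
    have h1 := pair_count (A := A) hg (R1 := q / 2) (R2 := q - q / 2) (by omega) Finset.univ
      (fun _ _ => Finset.subset_univ _) (fun _ _ => Finset.subset_univ _)
    have h2 : ∀ t, t ≤ q → (Fintype.card V : ℝ) *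
        (((q : ℝ) - 10) * (r : ℝ) * (1 - (1 - 1 / ((q : ℝ) - 10)) ^ t) + 1) ≤
        ∑ w : V, ((ball A t {w}).card : ℝ) := by
      intro t ht
      have h3 := Finset.card_nsmul_le_sum Finset.univ (fun w : V => ((ball A t {w}).card : ℝ))
        (((q : ℝ) - 10) * (r : ℝ) * (1 - (1 - 1 / ((q : ℝ) - 10)) ^ t) + 1)
        (fun w _ => naive_growth hq hr hout hlow hg hstrong ht w)
      rwa [Finset.card_univ, nsmul_eq_mul] at h3
    have h3 := h2 (q / 2) (by omega)
    have h4 := h2 (q - q / 2) (by omega)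
    have hn : (0 : ℝ) < (Fintype.card V : ℝ) := by exact_mod_cast Fintype.card_pos
    have h5 : (∑ w : V, ((ball A (q / 2) {w}).card : ℝ)) +
        ∑ w : V, ((ball A (q - q / 2) {w}).card : ℝ) ≤
        (Fintype.card V : ℝ) * ((Fintype.card V : ℝ) + 1) := by
      rw [Finset.card_univ] at h1
      exact_mod_cast h1
    have hx : (1 - 1 / ((q : ℝ) - 10)) ^ (q / 2) + (1 - 1 / ((q : ℝ) - 10)) ^ (q - q / 2) ≤ 1 := by
      interval_cases q <;> norm_num
    have h6 : (Fintype.card V : ℝ) * (((q : ℝ) - 10) * (r : ℝ) + 2) ≤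
        (Fintype.card V : ℝ) * ((Fintype.card V : ℝ) + 1) := by
      refine le_trans ?_ ((add_le_add h3 h4).trans h5)
      rw [← mul_add]
      refine mul_le_mul_of_nonneg_left ?_ hn.le
      have h7 : 0 ≤ ((q : ℝ) - 10) * (r : ℝ) := mul_nonneg (by linarith) (Nat.cast_nonneg r)
      nlinarith [mul_le_mul_of_nonneg_left hx h7]
    have h7 := le_of_mul_le_mul_left h6 hn
    linarith

theorem nine [Nonempty V] {q r : ℕ} (hq : 38 ≤ q) (hr : 1 ≤ r)
    (hout : ∀ v, r ≤ (Finset.univ.filter (fun y => A v y)).card) (hlow : Low A q)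
    (hg : NoShort A (q + 1))
    (hstrong : ∀ H : Finset V, H.Nonempty → (∀ x ∈ H, ∀ y, A x y → y ∈ H) → H = Finset.univ) :
    9 * (r : ℝ) + 1 ≤ (Fintype.card V : ℝ) := by
  have hq1 : (38 : ℝ) ≤ (q : ℝ) := by exact_mod_cast hq
  obtain ⟨v⟩ := ‹Nonempty V›
  have key : ∀ t : ℕ, t ≤ 12 →
      28 * (r : ℝ) * (1 - (27 / 28 : ℝ) ^ t) + 1 ≤ ((ball A t {v}).card : ℝ) := by
    intro t
    induction t with
    | zero =>
      intro _
      rw [ball_zero, Finset.card_singleton, pow_zero]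
      norm_num
    | succ t ih =>
      intro ht
      have ih1 := ih (by omega)
      have hX : (ball A t {v}).Nonempty := ⟨v, subset_ball t _ (Finset.mem_singleton_self v)⟩
      have hX' : ball A t {v} ≠ Finset.univ :=
        ball_ne_univ (by omega : 1 ≤ q) hr hout hg hstrong (by omega) v
      have hg1 := grow_one (by omega : 11 ≤ q) hout hlow hX hX'
      rw [← ball_add 1 t {v}, Nat.add_comm 1 t] at hg1
      refine le_trans ?_ hg1
      have hy : (0 : ℝ) ≤ ((ball A t {v}).card : ℝ) - 1 := by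
        have : 1 ≤ (ball A t {v}).card := Finset.card_pos.2 hX
        have h2 : (1 : ℝ) ≤ ((ball A t {v}).card : ℝ) := by exact_mod_cast this
        linarith
      have hdiv : (((ball A t {v}).card : ℝ) - 1) / ((q : ℝ) - 10) ≤
          (((ball A t {v}).card : ℝ) - 1) / 28 :=
        div_le_div_of_nonneg_left hy (by norm_num) (by linarith)
      have e1 : 28 * (r : ℝ) * (1 - (27 / 28 : ℝ) ^ (t + 1)) =
          28 * (r : ℝ) * (1 - (27 / 28 : ℝ) ^ t) * (27 / 28) + (r : ℝ) := by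
        rw [pow_succ]
        ring
      rw [e1]
      linarith
  have h12 := key 12 le_rfl
  have hle : ((ball A 12 {v}).card : ℝ) ≤ (Fintype.card V : ℝ) := by
    exact_mod_cast Finset.card_le_univ _
  have hr0 : (0 : ℝ) ≤ (r : ℝ) := Nat.cast_nonneg r
  have hnum : (9 : ℝ) ≤ 28 * (1 - (27 / 28 : ℝ) ^ 12) := by norm_num
  nlinarith [mul_le_mul_of_nonneg_right hnum hr0]

end Pool.Agent.Helper32.AC
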