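import Pool.Agent.Helper32.AC.Defs

/-!
Project AC: pair counting for the balls intersected with a set `M`.
-/

set_option autoImplicit false

namespace Pool.Agent.Helper32.AC

open Classical
open Pool.Agent.Helper24.CH

variable {V : Type} [Fintype V] {A : V → V → Prop}

omit [Fintype V] in
theorem card_eq_sum_ite {W B : Finset V} :
    (B ∩ W).card = ∑ u ∈ W, (if u ∈ B then 1 else 0) := by
  rw [Finset.sum_ite_mem, Finset.sum_const, smul_eq_mul, mul_one, Finset.inter_comm]

theorem pair_inter0 {q R : ℕ} (hg : NoShort A (q + 1)) (hR : 2 * R ≤ q) (M : Finset V) :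
    2 * ∑ w ∈ M, (ball A R {w} ∩ M).card ≤ M.card * (M.card + 1) := by
  have e1 : ∑ w ∈ M, (ball A R {w} ∩ M).card
      = ∑ w ∈ M, ∑ u ∈ M, (if u ∈ ball A R {w} then 1 else 0) :=
    Finset.sum_congr rfl fun w _ => card_eq_sum_ite
  have e2 : ∑ w ∈ M, (ball A R {w} ∩ M).card
      = ∑ w ∈ M, ∑ u ∈ M, (if w ∈ ball A R {u} then 1 else 0) := by
    rw [e1, Finset.sum_comm]
  have e0 : 2 * ∑ w ∈ M, (ball A R {w} ∩ M).card =
      ∑ w ∈ M, (ball A R {w} ∩ M).card + ∑ w ∈ M, (ball A R {w} ∩ M).card := by ring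
  rw [e0]
  nth_rewrite 1 [e1]
  rw [e2, ← Finset.sum_add_distrib]
  have e3 : M.card * (M.card + 1) = ∑ w ∈ M, ∑ u ∈ M, (1 + if w = u then 1 else 0) := by
    have : ∀ w ∈ M, ∑ u ∈ M, (1 + if w = u then 1 else 0) = M.card + 1 := by
      intro w hw
      rw [Finset.sum_add_distrib, Finset.sum_const, smul_eq_mul, mul_one, Finset.sum_ite_eq,
        if_pos hw]
    rw [Finset.sum_congr rfl this, Finset.sum_const, smul_eq_mul]
  rw [e3]
  refine Finset.sum_le_sum fun w hw => ?_
  rw [← Finset.sum_add_distrib]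
  refine Finset.sum_le_sum fun u hu => ?_
  by_cases hwu : w = u
  · rw [if_pos hwu]
    split_ifs <;> omega
  · rw [if_neg hwu]
    by_cases ha : u ∈ ball A R {w}
    · have hb : w ∉ ball A R {u} := hg.not_both (by omega) hwu ha
      rw [if_pos ha, if_neg hb]
    · rw [if_neg ha]
      split_ifs <;> omega

end Pool.Agent.Helper32.AC
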