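import Pool.Agent.Helper32.AC.Growth

/-!
Project AC, module Small: the growth claim for `j ≤ 8`, by iterating the one step growth.

Proof. Let `p = q - 10 ≥ 28`, `m = |S| ≤ r`, `x t = |ball A t S|`. If `ball A t S = univ` for some `t ≤ j`
then `ball A j S = univ` and `x j = n ≥ 9 r + 1 ≥ m + 8 r ≥ m + r f(j)` (as `f q j ≤ j` because
`7.4 j + 5 j²/q - 6 ≥ 0` for `j ≥ 1`). Otherwise `x (t+1) ≥ x t + r - (x t - 1)/p ≥ x t (1 - 1/p) + r` for `t < j`
(`ball A (t+1) S = ball A 1 (ball A t S)`), and by induction `x t ≥ m + t r - (r/p) t (t+1)/2`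
(step: `(m + t r - (r/p) t (t+1)/2)(1-1/p) + r ≥ m + (t+1) r - (r/p) t(t+1)/2 - (m + t r)/p`, `m ≤ r`).
Finally `(r/p) j (j+1)/2 ≤ (r/q)(7.4 j + 5 j²/q - 6)`: `q/p ≤ 1.4` (`q ≥ 38`) and
`0.7 j (j+1) ≤ 7.4 j - 6` for `1 ≤ j ≤ 8` (`interval_cases j`).
-/

set_option autoImplicit false

namespace Pool.Agent.Helper32.AC

open Classical
open Pool.Agent.Helper24.CH

variable {V : Type} [Fintype V] {A : V → V → Prop}

theorem grow_small {q r : ℕ} (hq : 38 ≤ q) (hr : 1 ≤ r)
    (hout : ∀ v, r ≤ (Finset.univ.filter (fun y => A v y)).card) (hlow : Low A q)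
    (hn : 9 * (r : ℝ) + 1 ≤ (Fintype.card V : ℝ)) {j : ℕ} (hj1 : 1 ≤ j) (hj8 : j ≤ 8) :
    Grow A q r j := by
  intro S hS hSr
  have hq' : (38 : ℝ) ≤ q := by exact_mod_cast hq
  have hp : (0 : ℝ) < (q : ℝ) - 10 := by linarith
  have hqpos : (0 : ℝ) < (q : ℝ) := by linarith
  have hr' : (1 : ℝ) ≤ r := by exact_mod_cast hr
  have hm : (S.card : ℝ) ≤ r := by exact_mod_cast hSr
  have hj' : (j : ℝ) ≤ 8 := by exact_mod_cast hj8
  have hj1' : (1 : ℝ) ≤ j := by exact_mod_cast hj1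
  have h0 : 0 ≤ 5 * (j : ℝ) ^ 2 / (q : ℝ) := by positivity
  rw [f_pos_eq q hj1]
  have hfj : (37 / 5 * (j : ℝ) + 5 * (j : ℝ) ^ 2 / (q : ℝ) - 6) / (q : ℝ) ≥ 0 := by
    apply div_nonneg _ hqpos.le
    linarith
  by_cases huniv : ball A j S = Finset.univ
  · rw [huniv, Finset.card_univ]
    have h1 : (r : ℝ) * ((j : ℝ) - (37 / 5 * (j : ℝ) + 5 * (j : ℝ) ^ 2 / (q : ℝ) - 6) / (q : ℝ)) ≤
        (r : ℝ) * 8 := by
      apply mul_le_mul_of_nonneg_left _ (by linarith)
      linarith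
    linarith
  · have key : ((j : ℝ) * (j + 1) / 2) / ((q : ℝ) - 10) ≤
        (37 / 5 * (j : ℝ) + 5 * (j : ℝ) ^ 2 / (q : ℝ) - 6) / (q : ℝ) := by
      rw [div_le_div_iff₀ hp hqpos]
      have h2 : 7 / 10 * ((j : ℝ) * (j + 1)) ≤ 37 / 5 * (j : ℝ) - 6 := by
        interval_cases j <;> norm_num
      have h3 : (q : ℝ) ≤ 7 / 5 * ((q : ℝ) - 10) := by linarith
      calc (j : ℝ) * (j + 1) / 2 * (q : ℝ) ≤ (j : ℝ) * (j + 1) / 2 * (7 / 5 * ((q : ℝ) - 10)) :=
            mul_le_mul_of_nonneg_left h3 (by positivity)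
        _ = 7 / 10 * ((j : ℝ) * (j + 1)) * ((q : ℝ) - 10) := by ring
        _ ≤ (37 / 5 * (j : ℝ) - 6) * ((q : ℝ) - 10) := mul_le_mul_of_nonneg_right h2 hp.le
        _ ≤ (37 / 5 * (j : ℝ) + 5 * (j : ℝ) ^ 2 / (q : ℝ) - 6) * ((q : ℝ) - 10) :=
            mul_le_mul_of_nonneg_right (by linarith) hp.le
    have hstep : ∀ t : ℕ, t ≤ j →
        (S.card : ℝ) + t * r - r / ((q : ℝ) - 10) * ((t : ℝ) * (t + 1) / 2) ≤
          ((ball A t S).card : ℝ) := by
      intro t
      induction t with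
      | zero => intro _; simp [ball_zero]
      | succ t ih =>
        intro ht
        have ih' := ih (by omega)
        have hne : ball A t S ≠ Finset.univ := by
          intro h
          apply huniv
          apply Finset.eq_univ_of_forall
          intro y
          apply ball_subset_ball_of_le (by omega : t ≤ j) S
          rw [h]
          exact Finset.mem_univ y
        have hnon : (ball A t S).Nonempty := hS.mono (subset_ball t S)
        have hg := grow_one (A := A) (by omega : 11 ≤ q) hout hlow hnon hne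
        rw [← Helper24.CH.ball_add, add_comm 1 t] at hg
        refine le_trans ?_ hg
        have hpi : 0 < 1 / ((q : ℝ) - 10) := by positivity
        have hpi1 : 1 / ((q : ℝ) - 10) ≤ 1 := by
          rw [div_le_one hp]; linarith
        set x : ℝ := ((ball A t S).card : ℝ) with hx
        set w : ℝ := 1 / ((q : ℝ) - 10) with hw
        have e1 : (x - 1) / ((q : ℝ) - 10) = (x - 1) * w := by rw [hw]; ring
        have e2 : (r : ℝ) / ((q : ℝ) - 10) = r * w := by rw [hw]; ring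
        rw [e1, e2]
        rw [e2] at ih'
        have ht0 : (0 : ℝ) ≤ t := Nat.cast_nonneg t
        -- L is the lower bound for x
        have hL : (S.card : ℝ) + t * r - r * w * ((t : ℝ) * (t + 1) / 2) ≤ (t + 1) * r := by
          have : 0 ≤ (r : ℝ) * w * ((t : ℝ) * (t + 1) / 2) := by positivity
          linarith
        have h5 : ((S.card : ℝ) + t * r - r * w * ((t : ℝ) * (t + 1) / 2)) * (1 - w) ≤
            x * (1 - w) := mul_le_mul_of_nonneg_right ih' (by linarith)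
        have h6 : ((S.card : ℝ) + t * r - r * w * ((t : ℝ) * (t + 1) / 2)) * w ≤
            (t + 1) * r * w := mul_le_mul_of_nonneg_right hL hpi.le
        push_cast
        nlinarith
    have h7 := hstep j le_rfl
    refine le_trans ?_ h7
    have h8 : (r : ℝ) * (((j : ℝ) * (j + 1) / 2) / ((q : ℝ) - 10)) ≤
        (r : ℝ) * ((37 / 5 * (j : ℝ) + 5 * (j : ℝ) ^ 2 / (q : ℝ) - 6) / (q : ℝ)) :=
      mul_le_mul_of_nonneg_left key (by linarith)
    have e3 : (r : ℝ) / ((q : ℝ) - 10) * ((j : ℝ) * (j + 1) / 2) =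
        (r : ℝ) * (((j : ℝ) * (j + 1) / 2) / ((q : ℝ) - 10)) := by ring
    rw [e3]
    linarith

end Pool.Agent.Helper32.AC
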